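import Mathlib

/-!
# The modular group acting on itself by conjugation: words and a ping-pong lemma
-/

set_option autoImplicit false

namespace Run7.h371

/-- The group `SL(2, ℤ)`. -/
abbrev SL2 := Matrix.SpecialLinearGroup (Fin 2) ℤ

def a : SL2 := ⟨!![1, 1; 0, 1], by decide⟩
def b : SL2 := ⟨!![1, 0; -1, 1], by decide⟩
def x : SL2 := ⟨!![0, 1; -1, 0], by decide⟩
def y : SL2 := ⟨!![0, 1; -1, 1], by decide⟩

theorem ab : a * b = y := by decide
theorem xx : x * x = -1 := by decide
theorem yyy : y * y * y = -1 := by decide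
theorem yinv_x : y⁻¹ * x = a := by decide

theorem a_val : a.1 = !![1, 1; 0, 1] := rfl
theorem b_val : b.1 = !![1, 0; -1, 1] := rfl
theorem x_val : x.1 = !![0, 1; -1, 0] := rfl
theorem y_val : y.1 = !![0, 1; -1, 1] := rfl

/-- Inner automorphisms. -/
def cj : SL2 →* MulAut SL2 := MulAut.conj

theorem cj_apply (g h : SL2) : cj g h = g * h * g⁻¹ := rfl

theorem cj_neg (g : SL2) : cj (-g) = cj g := by
  ext1 h
  rw [cj_apply, cj_apply]
  simp

theorem cj_neg_one : cj (-1 : SL2) = 1 := by
  rw [cj_neg]; simp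

/-- The conjugation by an image under an automorphism. -/
theorem cj_aut (f : MulAut SL2) (g : SL2) : cj (f g) = f * cj g * f⁻¹ := by
  ext1 h
  simp only [cj_apply, MulAut.mul_apply, map_mul, map_inv]
  simp

def X : MulAut SL2 := cj x
def Y : MulAut SL2 := cj y

theorem XX : X * X = 1 := by
  unfold X
  rw [← map_mul, xx, cj_neg_one]

theorem X_inv : X⁻¹ = X := by
  rw [inv_eq_iff_mul_eq_one, XX]

theorem Y3 : Y ^ 3 = 1 := by
  unfold Y
  rw [← map_pow]
  have : y ^ 3 = -1 := by decide
  rw [this, cj_neg_one]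

/-- Powers of `Y`, with exponents modulo three. -/
def Yp (c : ZMod 3) : MulAut SL2 := Y ^ c.val

theorem Yp_natCast (n : ℕ) : Yp (n : ZMod 3) = Y ^ n := by
  unfold Yp
  rw [ZMod.val_natCast]
  conv_rhs => rw [← Nat.mod_add_div n 3, pow_add, pow_mul, Y3, one_pow, mul_one]

theorem Yp_add (c d : ZMod 3) : Yp (c + d) = Yp c * Yp d := by
  have hc : ((c.val : ℕ) : ZMod 3) = c := ZMod.natCast_zmod_val c
  have hd : ((d.val : ℕ) : ZMod 3) = d := ZMod.natCast_zmod_val d
  rw [← hc, ← hd, ← Nat.cast_add, Yp_natCast, Yp_natCast, Yp_natCast, pow_add]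

@[simp] theorem Yp_zero : Yp 0 = 1 := by
  have := Yp_natCast 0
  simpa using this

theorem Yp_one : Yp 1 = Y := by
  have := Yp_natCast 1
  simpa using this

theorem Yp_neg (c : ZMod 3) : Yp (-c) = (Yp c)⁻¹ := by
  rw [eq_inv_iff_mul_eq_one, ← Yp_add]; simp

theorem Yp_sub (c d : ZMod 3) : Yp (c - d) = Yp c * (Yp d)⁻¹ := by
  rw [sub_eq_add_neg, Yp_add, Yp_neg]

/-- `cj a = Y⁻¹ X`. -/
theorem cj_a : cj a = Yp (-1) * X := by
  rw [Yp_neg, Yp_one, ← yinv_x, map_mul, map_inv]; rfl

theorem cj_x : cj x = X := rfl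

theorem cj_xinv : cj x⁻¹ = X := by
  rw [map_inv]; exact X_inv

/-! ### The ping-pong property -/

/-- The kernel of the conjugation action. -/
theorem cj_eq_one {g : SL2} (h : cj g = 1) : g = 1 ∨ g = -1 := by
  have h1 : g * a * g⁻¹ = a := by
    have := DFunLike.congr_fun h a
    simpa [cj_apply] using this
  have h2 : g * b * g⁻¹ = b := by
    have := DFunLike.congr_fun h b
    simpa [cj_apply] using this
  have h1' : g * a = a * g := by rw [mul_inv_eq_iff_eq_mul] at h1; exact h1
  have h2' : g * b = b * g := by rw [mul_inv_eq_iff_eq_mul] at h2; exact h2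
  have hdet := g.det_coe
  rw [Matrix.det_fin_two] at hdet
  have e1 : ∀ i j, (g.1 * a.1) i j = (a.1 * g.1) i j := fun i j => by
    have := congrArg (fun (z : SL2) => z.1 i j) h1'
    simpa using this
  have e2 : ∀ i j, (g.1 * b.1) i j = (b.1 * g.1) i j := fun i j => by
    have := congrArg (fun (z : SL2) => z.1 i j) h2'
    simpa using this
  have e100 := e1 0 0
  have e101 := e1 0 1
  have e200 := e2 0 0
  have e210 := e2 1 0
  simp [a_val, b_val, Matrix.mul_apply, Fin.sum_univ_two] at e100 e101 e200 e210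
  have h10 : g.1 1 0 = 0 := by linarith
  have h01 : g.1 0 1 = 0 := by linarith
  have h00 : g.1 0 0 = g.1 1 1 := by linarith
  rw [h10, h01, h00] at hdet
  have hd : g.1 1 1 * g.1 1 1 = 1 := by linarith
  rcases mul_self_eq_one_iff.1 hd with h | h
  · left
    ext i j
    fin_cases i <;> fin_cases j <;> simp [h10, h01, h00, h]
  · right
    ext i j
    fin_cases i <;> fin_cases j <;> simp [h10, h01, h00, h]

theorem cj_eq_cj {g h : SL2} (e : cj g = cj h) : g = h ∨ g = -h := by
  have : cj (g * h⁻¹) = 1 := by rw [map_mul, map_inv, e, mul_inv_cancel]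
  rcases cj_eq_one this with h1 | h1
  · left; exact mul_inv_eq_one.1 h1
  · right
    rw [mul_inv_eq_iff_eq_mul] at h1
    rw [h1]; simp

/-- The automorphisms whose normal form does not begin with `X`. -/
inductive NotX : MulAut SL2 → Prop
  | rot (c : ZMod 3) : NotX (Yp c)
  | cons {c : ZMod 3} {n : MulAut SL2} (hc : c ≠ 0) (hn : NotX n) : NotX (Yp c * X * n)

/-- The matrices which map the three short vectors to the closed first and third quadrants. -/
def Pos (N : SL2) : Prop :=
  0 ≤ N.1 0 0 * N.1 1 0 ∧ 0 ≤ N.1 0 1 * N.1 1 1 ∧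
    0 ≤ (N.1 0 0 + N.1 0 1) * (N.1 1 0 + N.1 1 1)

instance (N : SL2) : Decidable (Pos N) := by unfold Pos; infer_instance

theorem yx_val : (y * x).1 = !![-1, 0; -1, -1] := by decide

theorem NotX.exists_pos {n : MulAut SL2} (h : NotX n) : ∃ N, cj N = n ∧ Pos N := by
  induction h with
  | rot c =>
    refine ⟨y ^ c.val, ?_, ?_⟩
    · rw [map_pow]; rfl
    · have key : ∀ k : Fin 3, Pos (y ^ (k : ℕ)) := by decide
      exact key ⟨c.val, ZMod.val_lt c⟩
  | @cons c n hc hn ih =>
    obtain ⟨N, hN, h0, h1, h2⟩ := ih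
    have hc' : c = 1 ∨ c = -1 := by
      revert hc; revert c; decide
    rcases hc' with rfl | rfl
    · refine ⟨y * x * N, ?_, ?_⟩
      · rw [map_mul, map_mul, hN, Yp_one]; rfl
      · have e : ∀ i j, (y * x * N).1 i j = ((!![-1, 0; -1, -1] : Matrix (Fin 2) (Fin 2) ℤ) * N.1) i j := by
          intro i j
          rw [← yx_val]; rfl
        unfold Pos
        rw [e, e, e, e]
        simp only [Matrix.mul_apply, Fin.sum_univ_two,
          Matrix.of_apply, Matrix.cons_val', Matrix.cons_val_zero, Matrix.cons_val_one,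
          Matrix.cons_val_fin_one]
        refine ⟨?_, ?_, ?_⟩ <;> nlinarith [sq_nonneg (N.1 0 0), sq_nonneg (N.1 0 1),
          sq_nonneg (N.1 0 0 + N.1 0 1)]
    · refine ⟨a * N, ?_, ?_⟩
      · rw [map_mul, hN, cj_a]
      · have e : ∀ i j, (a * N).1 i j = ((!![1, 1; 0, 1] : Matrix (Fin 2) (Fin 2) ℤ) * N.1) i j := by
          intro i j
          rw [← a_val]; rfl
        unfold Pos
        rw [e, e, e, e]
        simp only [Matrix.mul_apply, Fin.sum_univ_two,
          Matrix.of_apply, Matrix.cons_val', Matrix.cons_val_zero, Matrix.cons_val_one,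
          Matrix.cons_val_fin_one]
        refine ⟨?_, ?_, ?_⟩ <;> nlinarith [sq_nonneg (N.1 1 0), sq_nonneg (N.1 1 1),
          sq_nonneg (N.1 1 0 + N.1 1 1)]

/-- The finitely many short matrices are not of the form `x * N` with `Pos N`. -/
theorem short_no (k : Fin 3) : ¬ Pos (x⁻¹ * y ^ (k : ℕ)) ∧ ¬ Pos (x⁻¹ * -(y ^ (k : ℕ))) := by
  revert k; decide

theorem NotX.X_mul_ne {n : MulAut SL2} (h : NotX n) (e : ZMod 3) : X * n ≠ Yp e := by
  intro he
  obtain ⟨N, hN, hP⟩ := h.exists_pos
  have h3 : cj (x * N) = cj (y ^ e.val) := by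
    rw [map_mul, hN, map_pow]; exact he
  have key := short_no ⟨e.val, ZMod.val_lt e⟩
  rcases cj_eq_cj h3 with h | h
  · apply key.1
    rw [← h]; simpa using hP
  · apply key.2
    rw [← h]; simpa using hP

/-! ### Words -/

/-- The automorphism `Y^{c₁} X Y^{c₂} X ⋯ Y^{c_k} X`. -/
def U : List (ZMod 3) → MulAut SL2
  | [] => 1
  | c :: l => Yp c * X * U l

@[simp] theorem U_nil : U [] = 1 := rfl
@[simp] theorem U_cons (c : ZMod 3) (l : List (ZMod 3)) : U (c :: l) = Yp c * X * U l := rfl

theorem U_append (l l' : List (ZMod 3)) : U (l ++ l') = U l * U l' := by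
  induction l with
  | nil => simp
  | cons c l ih => simp [ih, mul_assoc]

/-- The automorphism of an edge of the tree. -/
def V (l : List (ZMod 3)) (c : ZMod 3) : MulAut SL2 := U l * Yp c

theorem V_nil (c : ZMod 3) : V [] c = Yp c := by simp [V]
theorem V_cons (d : ZMod 3) (l : List (ZMod 3)) (c : ZMod 3) :
    V (d :: l) c = Yp d * X * V l c := by simp [V, mul_assoc]

/-- All entries of the list are nonzero. -/
def NZ (l : List (ZMod 3)) : Prop := ∀ d ∈ l, d ≠ 0

theorem lem1 (l : List (ZMod 3)) (c : ZMod 3) (h : NZ (l ++ [c])) {n : MulAut SL2} (hn : NotX n) :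
    NotX (V l c * X * n) := by
  induction l with
  | nil => rw [V_nil]; exact .cons (h c (by simp)) hn
  | cons d l ih =>
    rw [V_cons]
    have h1 : NotX (V l c * X * n) := ih (fun e he => h e (by simp at he ⊢; tauto))
    have := NotX.cons (h d (by simp)) h1
    simpa [mul_assoc] using this

theorem lem2 (l : List (ZMod 3)) (c : ZMod 3) (h : NZ (l ++ [c])) {n : MulAut SL2} (hn : NotX n) :
    NotX ((V l c)⁻¹ * X * n) := by
  induction l generalizing n with
  | nil =>
    rw [V_nil, ← Yp_neg]
    exact .cons (by simpa using h c (by simp)) hn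
  | cons d l ih =>
    have hd : -d ≠ 0 := by simpa using h d (by simp)
    have h1 := ih (fun e he => h e (by simp at he ⊢; tauto)) (NotX.cons hd hn)
    rw [V_cons, mul_inv_rev, mul_inv_rev, X_inv, ← Yp_neg]
    simpa [mul_assoc] using h1

theorem lem3 (l : List (ZMod 3)) (c : ZMod 3) (h : NZ (l ++ [c]).tail) : NotX ((V l c)⁻¹) := by
  cases l with
  | nil => rw [V_nil, ← Yp_neg]; exact .rot _
  | cons d l =>
    rw [V_cons, mul_inv_rev, mul_inv_rev, X_inv, ← Yp_neg]
    have := lem2 l c (by simpa using h) (NotX.rot (-d))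
    simpa [mul_assoc] using this

/-- The edge `(l, c)` lies strictly before the edge `(l', c')`. -/
def Before (l : List (ZMod 3)) (c : ZMod 3) (l' : List (ZMod 3)) : Prop :=
  ∃ m, l' = l ++ c :: m

/-- The edges `(l, c)` and `(l', c')` are comparable. -/
def Comp (l : List (ZMod 3)) (c : ZMod 3) (l' : List (ZMod 3)) (c' : ZMod 3) : Prop :=
  (l = l' ∧ c = c') ∨ Before l c l' ∨ Before l' c' l

theorem lem4 (l l' : List (ZMod 3)) (c c' : ZMod 3) (h : NZ (l ++ [c]).tail)
    (h' : NZ (l' ++ [c']).tail) (hc : ¬ Comp l c l' c') {n : MulAut SL2} (hn : NotX n) :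
    NotX ((V l c)⁻¹ * (V l' c' * X * n)) := by
  induction l generalizing l' with
  | nil =>
    cases l' with
    | nil =>
      have hne : c' - c ≠ 0 := by
        intro e
        exact hc (Or.inl ⟨rfl, (sub_eq_zero.1 e).symm⟩)
      have := NotX.cons hne hn
      rw [sub_eq_add_neg, add_comm, Yp_add, Yp_neg] at this
      rw [V_nil, V_nil]
      simpa [mul_assoc] using this
    | cons d' l' =>
      have hne : d' - c ≠ 0 := by
        intro e
        have : c = d' := (sub_eq_zero.1 e).symm
        subst this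
        exact hc (Or.inr (Or.inl ⟨l', by simp⟩))
      have h1 := lem1 l' c' (by simpa using h') hn
      have := NotX.cons hne h1
      rw [sub_eq_add_neg, add_comm, Yp_add, Yp_neg] at this
      rw [V_nil, V_cons]
      simpa [mul_assoc] using this
  | cons d l ih =>
    have hl : NZ (l ++ [c]) := by simpa using h
    cases l' with
    | nil =>
      have hne : c' - d ≠ 0 := by
        intro e
        have : c' = d := sub_eq_zero.1 e
        subst this
        exact hc (Or.inr (Or.inr ⟨l, by simp⟩))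
      have := lem2 l c hl (NotX.cons hne hn)
      rw [sub_eq_add_neg, add_comm, Yp_add, Yp_neg] at this
      rw [V_nil, V_cons, mul_inv_rev, mul_inv_rev, X_inv]
      simpa [mul_assoc] using this
    | cons d' l' =>
      have hl' : NZ (l' ++ [c']) := by simpa using h'
      by_cases hd : d = d'
      · subst hd
        have hc' : ¬ Comp l c l' c' := by
          rintro (⟨h1, h2⟩ | ⟨m, hm⟩ | ⟨m, hm⟩)
          · exact hc (Or.inl ⟨by rw [h1], h2⟩)
          · exact hc (Or.inr (Or.inl ⟨m, by simp [hm]⟩))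
          · exact hc (Or.inr (Or.inr ⟨m, by simp [hm]⟩))
        have := ih l' (fun e he => hl e (List.mem_of_mem_tail he))
          (fun e he => hl' e (List.mem_of_mem_tail he)) hc'
        have e : (V (d :: l) c)⁻¹ * (V (d :: l') c' * X * n) = (V l c)⁻¹ * (V l' c' * X * n) := by
          rw [V_cons, V_cons]
          group
        rw [e]; exact this
      · have hne : d' - d ≠ 0 := fun e => hd (sub_eq_zero.1 e).symm
        have h1 := lem1 l' c' hl' hn
        have h2 := lem2 l c hl (NotX.cons hne h1)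
        rw [sub_eq_add_neg, add_comm, Yp_add, Yp_neg] at h2
        rw [V_cons, V_cons, mul_inv_rev, mul_inv_rev, X_inv]
        simpa [mul_assoc] using h2

theorem lem5 (l : List (ZMod 3)) (c : ZMod 3) (h : NZ (l ++ [c]).tail) {n : MulAut SL2}
    (hn : NotX n) (e : ZMod 3) : V l c * X * n ≠ Yp e := by
  intro he
  cases l with
  | nil =>
    rw [V_nil] at he
    have : X * n = Yp (e - c) := by
      rw [sub_eq_add_neg, add_comm, Yp_add, Yp_neg, ← he]; group
    exact hn.X_mul_ne _ this
  | cons d l =>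
    rw [V_cons] at he
    have h1 := lem1 l c (by simpa using h) hn
    have : X * (V l c * X * n) = Yp (e - d) := by
      rw [sub_eq_add_neg, add_comm, Yp_add, Yp_neg, ← he]; group
    exact h1.X_mul_ne _ this

end Run7.h371
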