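import Mathlib

/-!
# Elementary transformations of labelled tuples of group elements
-/

set_option autoImplicit false

namespace Run7.h371

/-- The labels of the entries: an ordinary entry, and the two special ones. -/
inductive Lab
  | nod
  | zero
  | inf
  deriving DecidableEq

/-- The elementary transformations of a list of labelled group elements: exchanging two
neighbours (the second one moves left past the first one, and gets conjugated by it), and
conjugating all entries by the same element. -/
inductive Move {G : Type} [Group G] : List (Lab × G) → List (Lab × G) → Prop
  | exch (l m : List (Lab × G)) (p q : Lab × G) :
      Move (l ++ p :: q :: m) (l ++ (q.1, p.2 * q.2 * p.2⁻¹) :: p :: m)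
  | conj (g : G) (l : List (Lab × G)) :
      Move l (l.map fun p => (p.1, g * p.2 * g⁻¹))

/-- The equivalence relation generated by the elementary transformations. -/
def Eqv {G : Type} [Group G] : List (Lab × G) → List (Lab × G) → Prop :=
  Relation.EqvGen Move

end Run7.h371
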