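import Mathlib
import Pool.Agent.Run7.h371.Moves

/-!
# Hurwitz equivalence of labelled tuples
-/

set_option autoImplicit false

namespace Run7.h371

variable {G : Type} [Group G]

/-- The exchanges alone. -/
inductive HMove : List (Lab × G) → List (Lab × G) → Prop
  | exch (l m : List (Lab × G)) (p q : Lab × G) :
      HMove (l ++ p :: q :: m) (l ++ (q.1, p.2 * q.2 * p.2⁻¹) :: p :: m)

/-- The equivalence relation generated by the exchanges. -/
def Hur : List (Lab × G) → List (Lab × G) → Prop := Relation.EqvGen HMove

/-- Conjugation of all the entries. -/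
def cL (g : G) (l : List (Lab × G)) : List (Lab × G) := l.map fun p => (p.1, g * p.2 * g⁻¹)

/-- The product of the entries. -/
def pr (l : List (Lab × G)) : G := (l.map Prod.snd).prod

@[simp] theorem pr_nil : pr ([] : List (Lab × G)) = 1 := rfl
@[simp] theorem pr_cons (p : Lab × G) (l : List (Lab × G)) : pr (p :: l) = p.2 * pr l := by
  simp [pr]
@[simp] theorem pr_append (l m : List (Lab × G)) : pr (l ++ m) = pr l * pr m := by
  simp [pr]

@[simp] theorem cL_nil (g : G) : cL g ([] : List (Lab × G)) = [] := rfl
@[simp] theorem cL_cons (g : G) (p : Lab × G) (l : List (Lab × G)) :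
    cL g (p :: l) = (p.1, g * p.2 * g⁻¹) :: cL g l := rfl
@[simp] theorem cL_append (g : G) (l m : List (Lab × G)) : cL g (l ++ m) = cL g l ++ cL g m := by
  simp [cL]
theorem cL_one (l : List (Lab × G)) : cL 1 l = l := by
  simp [cL]
theorem cL_mul (g h : G) (l : List (Lab × G)) : cL (g * h) l = cL g (cL h l) := by
  simp [cL, mul_assoc]
theorem cL_inv_cL (g : G) (l : List (Lab × G)) : cL g⁻¹ (cL g l) = l := by
  rw [← cL_mul, inv_mul_cancel, cL_one]
theorem cL_cL_inv (g : G) (l : List (Lab × G)) : cL g (cL g⁻¹ l) = l := by
  rw [← cL_mul, mul_inv_cancel, cL_one]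
theorem pr_cL (g : G) (l : List (Lab × G)) : pr (cL g l) = g * pr l * g⁻¹ := by
  induction l with
  | nil => simp
  | cons p l ih => simp [ih, mul_assoc]
@[simp] theorem length_cL (g : G) (l : List (Lab × G)) : (cL g l).length = l.length := by
  simp [cL]

namespace Hur

theorem refl (l : List (Lab × G)) : Hur l l := Relation.EqvGen.refl l
theorem symm {l m : List (Lab × G)} (h : Hur l m) : Hur m l := Relation.EqvGen.symm _ _ h
theorem trans {l m n : List (Lab × G)} (h : Hur l m) (h' : Hur m n) : Hur l n :=
  Relation.EqvGen.trans _ _ _ h h'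
theorem of_eq {l m : List (Lab × G)} (h : l = m) : Hur l m := h ▸ refl l

theorem left (k : List (Lab × G)) {l m : List (Lab × G)} (h : Hur l m) :
    Hur (k ++ l) (k ++ m) := by
  induction h with
  | rel u v h =>
    obtain ⟨l, m, p, q⟩ := h
    have := HMove.exch (k ++ l) m p q
    have h2 : Hur _ _ := Relation.EqvGen.rel _ _ this
    simpa [List.append_assoc] using h2
  | refl u => exact refl _
  | symm u v _ ih => exact ih.symm
  | trans u v w _ _ ih1 ih2 => exact ih1.trans ih2

theorem right (k : List (Lab × G)) {l m : List (Lab × G)} (h : Hur l m) :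
    Hur (l ++ k) (m ++ k) := by
  induction h with
  | rel u v h =>
    obtain ⟨l, m, p, q⟩ := h
    have := HMove.exch l (m ++ k) p q
    have h2 : Hur _ _ := Relation.EqvGen.rel _ _ this
    simpa [List.append_assoc] using h2
  | refl u => exact refl _
  | symm u v _ ih => exact ih.symm
  | trans u v w _ _ ih1 ih2 => exact ih1.trans ih2

theorem append {l m l' m' : List (Lab × G)} (h : Hur l m) (h' : Hur l' m') :
    Hur (l ++ l') (m ++ m') := (h.right l').trans (h'.left m)

theorem cons (p : Lab × G) {l m : List (Lab × G)} (h : Hur l m) :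
    Hur (p :: l) (p :: m) := h.left [p]

theorem pr_eq {l m : List (Lab × G)} (h : Hur l m) : pr l = pr m := by
  induction h with
  | rel u v h =>
    obtain ⟨l, m, p, q⟩ := h
    simp [mul_assoc]
  | refl u => rfl
  | symm u v _ ih => exact ih.symm
  | trans u v w _ _ ih1 ih2 => exact ih1.trans ih2

theorem perm {l m : List (Lab × G)} (h : Hur l m) :
    (l.map Prod.fst).Perm (m.map Prod.fst) := by
  induction h with
  | rel u v h =>
    obtain ⟨l, m, p, q⟩ := h
    simp only [List.map_append, List.map_cons]
    exact List.Perm.append_left _ (List.Perm.swap _ _ _)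
  | refl u => exact List.Perm.refl _
  | symm u v _ ih => exact ih.symm
  | trans u v w _ _ ih1 ih2 => exact ih1.trans ih2

theorem length_eq {l m : List (Lab × G)} (h : Hur l m) : l.length = m.length := by
  have := h.perm.length_eq
  simpa using this

theorem conj (g : G) {l m : List (Lab × G)} (h : Hur l m) : Hur (cL g l) (cL g m) := by
  induction h with
  | rel u v h =>
    obtain ⟨l, m, p, q⟩ := h
    have := HMove.exch (cL g l) (cL g m) (p.1, g * p.2 * g⁻¹) (q.1, g * q.2 * g⁻¹)
    refine Relation.EqvGen.rel _ _ ?_
    simp only [cL_append, cL_cons]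
    convert this using 4
    simp [mul_assoc]
  | refl u => exact refl _
  | symm u v _ ih => exact ih.symm
  | trans u v w _ _ ih1 ih2 => exact ih1.trans ih2

/-- The second entry moves left. -/
theorem swapL (p q : Lab × G) (m : List (Lab × G)) :
    Hur (p :: q :: m) ((q.1, p.2 * q.2 * p.2⁻¹) :: p :: m) :=
  Relation.EqvGen.rel _ _ (HMove.exch [] m p q)

/-- The first entry moves right. -/
theorem swapR (p q : Lab × G) (m : List (Lab × G)) :
    Hur (p :: q :: m) (q :: (p.1, q.2⁻¹ * p.2 * q.2) :: m) := by
  have := (swapL q (p.1, q.2⁻¹ * p.2 * q.2) m).symm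
  simpa [mul_assoc] using this

/-- One entry moves to the right past a list. -/
theorem passR (p : Lab × G) (l : List (Lab × G)) :
    Hur (p :: l) (l ++ [(p.1, (pr l)⁻¹ * p.2 * pr l)]) := by
  induction l generalizing p with
  | nil => simpa using refl _
  | cons q l ih =>
    refine (swapR p q l).trans ?_
    have := (ih (p.1, q.2⁻¹ * p.2 * q.2)).cons q
    simpa [mul_assoc] using this

/-- A list moves to the right past another one. -/
theorem exchR (l m : List (Lab × G)) : Hur (l ++ m) (m ++ cL (pr m)⁻¹ l) := by
  induction l with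
  | nil => simpa using refl _
  | cons p l ih =>
    refine (ih.cons p).trans ?_
    refine ((passR p m).right (cL (pr m)⁻¹ l)).trans ?_
    simpa using refl _

/-- A list moves to the left past another one. -/
theorem exchL (l m : List (Lab × G)) : Hur (l ++ m) (cL (pr l) m ++ l) := by
  have := (exchR (cL (pr l) m) l).symm
  rw [cL_inv_cL] at this
  exact this

/-- A list with central product commutes with everything. -/
theorem central {l : List (Lab × G)} (h : ∀ g : G, pr l * g = g * pr l) (m : List (Lab × G)) :
    Hur (l ++ m) (m ++ l) := by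
  refine (exchL l m).trans (of_eq ?_)
  congr 1
  unfold cL
  conv_rhs => rw [← List.map_id m]
  apply List.map_congr_left
  intro p _
  simp [h p.2]

end Hur

namespace Eqv

theorem refl (l : List (Lab × G)) : Eqv l l := Relation.EqvGen.refl l
theorem symm {l m : List (Lab × G)} (h : Eqv l m) : Eqv m l := Relation.EqvGen.symm _ _ h
theorem trans {l m n : List (Lab × G)} (h : Eqv l m) (h' : Eqv m n) : Eqv l n :=
  Relation.EqvGen.trans _ _ _ h h'

theorem conj (g : G) (l : List (Lab × G)) : Eqv l (cL g l) :=
  Relation.EqvGen.rel _ _ (Move.conj g l)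

end Eqv

theorem Hur.eqv {l m : List (Lab × G)} (h : Hur l m) : Eqv l m := by
  induction h with
  | rel u v h =>
    obtain ⟨l, m, p, q⟩ := h
    exact Relation.EqvGen.rel _ _ (Move.exch l m p q)
  | refl u => exact Eqv.refl _
  | symm u v _ ih => exact ih.symm
  | trans u v w _ _ ih1 ih2 => exact ih1.trans ih2

namespace Eqv

/-- Cyclic rotation. -/
theorem rot (l : List (Lab × G)) (p : Lab × G) : Eqv (l ++ [p]) (p :: l) := by
  refine (Hur.exchR l [p]).eqv.trans ?_
  refine (Eqv.conj p.2 _).trans ?_
  have : cL p.2 ([p] ++ cL (pr [p])⁻¹ l) = p :: l := by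
    rw [cL_append]
    simp only [pr_cons, pr_nil, mul_one]
    rw [cL_cL_inv]
    simp
  rw [this]
  exact refl _

theorem perm {l m : List (Lab × G)} (h : Eqv l m) :
    (l.map Prod.fst).Perm (m.map Prod.fst) := by
  induction h with
  | rel u v h =>
    cases h with
    | exch l m p q =>
      simp only [List.map_append, List.map_cons]
      exact List.Perm.append_left _ (List.Perm.swap _ _ _)
    | conj g l =>
      have : List.map Prod.fst (List.map (fun p : Lab × G => (p.1, g * p.2 * g⁻¹)) u) =
          List.map Prod.fst u := by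
        rw [List.map_map]; rfl
      rw [this]
  | refl u => exact List.Perm.refl _
  | symm u v _ ih => exact ih.symm
  | trans u v w _ _ ih1 ih2 => exact ih1.trans ih2

end Eqv

end Run7.h371
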