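import Mathlib
import Pool.Agent.Run7.h371.Basic
import Pool.Agent.Run7.h371.Hur

/-!
# Items: coordinates of the conjugates of the model elements, and their reduction
-/

set_option autoImplicit false

namespace Run7.h371

theorem X_a : X a = Y a := by
  change x * a * x⁻¹ = y * a * y⁻¹
  decide

theorem X_Ya : X (Y a) = a := by
  change x * (y * a * y⁻¹) * x⁻¹ = a
  decide

theorem X_x : X x = x := by
  change x * x * x⁻¹ = x
  decide

theorem X_xinv : X x⁻¹ = x⁻¹ := by
  change x * x⁻¹ * x⁻¹ = x⁻¹
  decide

/-- Coordinates of an element. -/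
structure Item where
  lab : Lab
  path : List (ZMod 3)
  c : ZMod 3

/-- The model elements: for each label a parabolic or an elliptic element of order four. -/
structure Model where
  M : Lab → SL2
  D : Lab → Bool
  hD : ∀ l, D l = true → M l = a
  hE : ∀ l, D l = false → M l = x ∨ M l = x⁻¹

namespace Model

variable (m : Model)

def δ (l : Lab) : ZMod 3 := if m.D l then -1 else 0

theorem δ_true {l : Lab} (h : m.D l = true) : m.δ l = -1 := by simp [δ, h]
theorem δ_false {l : Lab} (h : m.D l = false) : m.δ l = 0 := by simp [δ, h]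

/-- The element with given coordinates. -/
def ev (p : Item) : Lab × SL2 := (p.lab, V p.path p.c (m.M p.lab))

theorem cj_M (l : Lab) : cj (m.M l) = Yp (m.δ l) * X := by
  cases h : m.D l with
  | false =>
    rw [m.δ_false h]
    rcases m.hE l h with h | h
    · rw [h, cj_x]; simp
    · rw [h, cj_xinv]; simp
  | true => rw [m.δ_true h, m.hD l h, cj_a]

theorem X_M {l : Lab} (h : m.D l = false) : X (m.M l) = m.M l := by
  rcases m.hE l h with h | h
  · rw [h, X_x]
  · rw [h, X_xinv]

end Model

theorem V_add (l : List (ZMod 3)) (c d : ZMod 3) : V l (c + d) = V l c * Yp d := by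
  simp [V, Yp_add, mul_assoc]

theorem V_mid (l : List (ZMod 3)) (c : ZMod 3) (k : List (ZMod 3)) (e : ZMod 3) :
    V (l ++ c :: k) e = V l c * X * V k e := by
  simp [V, U_append, mul_assoc]

theorem Model.cj_ev (m : Model) (p : Item) :
    cj (m.ev p).2 = V p.path (p.c + m.δ p.lab) * X * (V p.path p.c)⁻¹ := by
  unfold Model.ev
  simp only
  rw [cj_aut, m.cj_M, V_add]
  simp [mul_assoc]

/-- Concatenation of two paths, the end of the first one merging with the beginning of the
second one. -/
def glue (l : List (ZMod 3)) (e : ZMod 3) : List (ZMod 3) → ZMod 3 → List (ZMod 3) × ZMod 3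
  | [], c => (l, e + c)
  | d :: k, c => (l ++ (e + d) :: k, c)

theorem V_glue (l : List (ZMod 3)) (e : ZMod 3) (k : List (ZMod 3)) (c : ZMod 3) :
    V (glue l e k c).1 (glue l e k c).2 = V l e * V k c := by
  cases k with
  | nil => simp [glue, V_add, V_nil]
  | cons d k =>
    simp only [glue]
    rw [V_mid, V_cons, V_add]
    simp [mul_assoc]

theorem length_glue (l : List (ZMod 3)) (e : ZMod 3) (k : List (ZMod 3)) (c : ZMod 3) :
    (glue l e k c).1.length = l.length + k.length := by
  cases k with
  | nil => simp [glue]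
  | cons d k => simp [glue]

/-- The item with glued coordinates. -/
def gi (s : Lab) (l : List (ZMod 3)) (e : ZMod 3) (k : List (ZMod 3)) (c : ZMod 3) : Item :=
  ⟨s, (glue l e k c).1, (glue l e k c).2⟩

theorem Model.ev_gi (m : Model) (s : Lab) (l : List (ZMod 3)) (e : ZMod 3) (k : List (ZMod 3))
    (c : ZMod 3) : m.ev (gi s l e k c) = (s, V l e (V k c (m.M s))) := by
  unfold Model.ev gi
  simp only
  rw [V_glue]; rfl

theorem length_gi (s : Lab) (l : List (ZMod 3)) (e : ZMod 3) (k : List (ZMod 3)) (c : ZMod 3) :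
    (gi s l e k c).path.length = l.length + k.length := length_glue l e k c

/-- Rotation of an item about the base vertex. -/
def sh (e : ZMod 3) (p : Item) : Item := gi p.lab [] e p.path p.c

theorem Model.ev_sh (m : Model) (e : ZMod 3) (p : Item) :
    m.ev (sh e p) = (p.lab, Yp e (m.ev p).2) := by
  unfold sh
  rw [Model.ev_gi, V_nil]; rfl

theorem length_sh (e : ZMod 3) (p : Item) : (sh e p).path.length = p.path.length := by
  unfold sh; rw [length_gi]; simp

/-- The size of a list of items. -/
def sz (l : List Item) : ℕ := (l.map fun p => p.path.length + 1).sum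

@[simp] theorem sz_nil : sz [] = 0 := rfl
@[simp] theorem sz_cons (p : Item) (l : List Item) : sz (p :: l) = p.path.length + 1 + sz l := by
  simp [sz]
@[simp] theorem sz_append (l k : List Item) : sz (l ++ k) = sz l + sz k := by
  simp [sz]

theorem sz_sh (e : ZMod 3) (l : List Item) : sz (l.map (sh e)) = sz l := by
  induction l with
  | nil => rfl
  | cons p l ih => simp [ih, length_sh]

namespace Model

variable (m : Model)

theorem cL_ev {z : SL2} {e : ZMod 3} (h : cj z = Yp e) (l : List Item) :
    cL z (l.map m.ev) = (l.map (sh e)).map m.ev := by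
  induction l with
  | nil => rfl
  | cons p l ih =>
    simp only [List.map_cons, cL_cons, ih]
    congr 1
    rw [ev_sh, ← h]; rfl

theorem cj_inv_eq {z : SL2} {e : ZMod 3} (h : cj z = Yp e) : cj z⁻¹ = Yp (-e) := by
  rw [map_inv, h, Yp_neg]

/-- A reduced item. -/
def Red (p : Item) : Prop :=
  NZ (p.path ++ [p.c]).tail ∧ NZ (p.path ++ [p.c + m.δ p.lab]).tail

theorem exists_zero (l : List (ZMod 3)) (h : (0 : ZMod 3) ∈ l.tail) :
    ∃ l₁ d l₂, l = l₁ ++ d :: 0 :: l₂ := by
  induction l with
  | nil => simp at h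
  | cons e l ih =>
    simp only [List.tail_cons] at h
    cases l with
    | nil => simp at h
    | cons f l =>
      rcases List.mem_cons.1 h with h | h
      · exact ⟨[], e, l, by simp [← h]⟩
      · obtain ⟨l₁, d, l₂, h'⟩ := ih (by simpa using h)
        exact ⟨e :: l₁, d, l₂, by rw [h']; rfl⟩

theorem ev_zero_D {s : Lab} (h : m.D s = true) (l : List (ZMod 3)) (d : ZMod 3) :
    m.ev ⟨s, l ++ [d], 0⟩ = m.ev ⟨s, l, d + 1⟩ := by
  unfold ev
  simp only
  rw [V_mid, V_nil, Yp_zero, m.hD s h, V_add, Yp_one]
  have : (V l d * X * 1) a = (V l d * Y) a := by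
    simp only [mul_one, MulAut.mul_apply]
    rw [X_a]
  rw [this]

theorem ev_one_D {s : Lab} (h : m.D s = true) (l : List (ZMod 3)) (d : ZMod 3) :
    m.ev ⟨s, l ++ [d], 1⟩ = m.ev ⟨s, l, d⟩ := by
  unfold ev
  simp only
  rw [V_mid, V_nil, Yp_one, m.hD s h]
  have : (V l d * X * Y) a = V l d a := by
    simp only [MulAut.mul_apply]
    rw [X_Ya]
  rw [this]

theorem ev_zero_E {s : Lab} (h : m.D s = false) (l : List (ZMod 3)) (d : ZMod 3) :
    m.ev ⟨s, l ++ [d], 0⟩ = m.ev ⟨s, l, d⟩ := by
  unfold ev
  simp only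
  rw [V_mid, V_nil, Yp_zero]
  have : (V l d * X * 1) (m.M s) = V l d (m.M s) := by
    simp only [mul_one, MulAut.mul_apply]
    rw [m.X_M h]
  rw [this]

/-- If the last entry is zero, the item can be shortened. -/
theorem shorten_last (s : Lab) (l : List (ZMod 3)) (d c : ZMod 3) (h : c = 0 ∨ c + m.δ s = 0) :
    ∃ p' : Item, m.ev p' = m.ev ⟨s, l ++ [d], c⟩ ∧ p'.path.length < (l ++ [d]).length := by
  cases hD : m.D s with
  | false =>
    rw [m.δ_false hD, add_zero, or_self] at h
    subst h
    exact ⟨⟨s, l, d⟩, (m.ev_zero_E hD l d).symm, by simp⟩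
  | true =>
    rw [m.δ_true hD] at h
    rcases h with h | h
    · subst h
      exact ⟨⟨s, l, d + 1⟩, (m.ev_zero_D hD l d).symm, by simp⟩
    · have h' : c = 1 := by
        have := add_eq_zero_iff_eq_neg.1 h
        simpa using this
      subst h'
      exact ⟨⟨s, l, d⟩, (m.ev_one_D hD l d).symm, by simp⟩

/-- If there is a zero inside, the item can be shortened. -/
theorem shorten_mid (s : Lab) (l₁ l₂ : List (ZMod 3)) (d c : ZMod 3) :
    ∃ p' : Item, m.ev p' = m.ev ⟨s, l₁ ++ d :: 0 :: l₂, c⟩ ∧
      p'.path.length < (l₁ ++ d :: 0 :: l₂).length := by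
  refine ⟨gi s l₁ d l₂ c, ?_, ?_⟩
  · rw [ev_gi]
    unfold ev
    simp only
    rw [V_mid, V_cons, Yp_zero, one_mul]
    have : V l₁ d * X * (X * V l₂ c) = V l₁ d * V l₂ c := by
      rw [mul_assoc, ← mul_assoc X, XX, one_mul]
    rw [this]; rfl
  · rw [length_gi]; simp

theorem shorten {p : Item} (h : ¬ m.Red p) :
    ∃ p' : Item, m.ev p' = m.ev p ∧ p'.path.length < p.path.length := by
  obtain ⟨s, l, c⟩ := p
  rcases List.eq_nil_or_concat l with rfl | ⟨l', d, rfl⟩
  · exfalso; apply h
    constructor <;> · intro e he; simp at he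
  · rw [List.concat_eq_append] at *
    by_cases h1 : c = 0 ∨ c + m.δ s = 0
    · exact m.shorten_last s l' d c h1
    · by_cases h2 : (0 : ZMod 3) ∈ (l' ++ [d]).tail
      · obtain ⟨l₁, e, l₂, h3⟩ := exists_zero _ h2
        simp only [h3]
        exact m.shorten_mid s l₁ l₂ e c
      · exfalso; apply h
        push Not at h1
        have ht : ∀ f : ZMod 3, (l' ++ [d] ++ [f]).tail = (l' ++ [d]).tail ++ [f] := by
          intro f
          rw [List.tail_append_of_ne_nil (by simp)]
        constructor
        · intro e he h0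
          simp only [ht] at he
          rcases List.mem_append.1 he with he | he
          · exact h2 (h0 ▸ he)
          · exact h1.1 (by rw [← List.mem_singleton.1 he, h0])
        · intro e he h0
          simp only [ht] at he
          rcases List.mem_append.1 he with he | he
          · exact h2 (h0 ▸ he)
          · exact h1.2 (by rw [← List.mem_singleton.1 he, h0])

end Model

end Run7.h371
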