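import Mathlib
import Pool.Agent.Run7.h371.Items

/-!
# Reduction of lists of items to blocks and an irreducible list
-/

set_option autoImplicit false

namespace Run7.h371

/-- If no two neighbours are related fails, there are two such neighbours. -/
theorem exists_adj {α : Type} (R : α → α → Prop) (l : List α) (h : ¬ l.IsChain R) :
    ∃ l₁ p q l₂, l = l₁ ++ p :: q :: l₂ ∧ ¬ R p q := by
  induction l with
  | nil => exact absurd List.IsChain.nil h
  | cons p l ih =>
    cases l with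
    | nil => exact absurd (List.IsChain.singleton p) h
    | cons q l =>
      by_cases hR : R p q
      · have h' : ¬ (q :: l).IsChain R := fun hc => h (List.IsChain.cons_cons hR hc)
        obtain ⟨l₁, p', q', l₂, h1, h2⟩ := ih h'
        exact ⟨p :: l₁, p', q', l₂, by rw [h1]; rfl, h2⟩
      · exact ⟨[], p, q, l, rfl, hR⟩

namespace Model

variable (m : Model)

/-- The junction of two neighbours is comparable. -/
def Junc (p q : Item) : Prop := Comp p.path p.c q.path (q.c + m.δ q.lab)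

/-- An irreducible list. -/
def Irr (l : List Item) : Prop := l.IsChain (fun p q => ¬ m.Junc p q) ∧ ∀ p ∈ l, m.Red p

/-- Two neighbours forming a block. -/
def Blk (p q : Item) : Prop :=
  p.path = q.path ∧ p.c = q.c + m.δ q.lab ∧
    (p.path = [] ∨ (m.D p.lab = false ∧ m.D q.lab = false))

/-- Concatenations of blocks. -/
inductive BL : List Item → Prop
  | nil : BL []
  | cons {p q : Item} {l : List Item} (h : m.Blk p q) (h' : BL l) : BL (p :: q :: l)

theorem Blk.rot {p q : Item} (h : m.Blk p q) : ∃ e, cj (pr [m.ev p, m.ev q]) = Yp e := by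
  obtain ⟨h1, h2, h3⟩ := h
  have key : cj (pr [m.ev p, m.ev q]) =
      V p.path (p.c + m.δ p.lab) * (V p.path q.c)⁻¹ := by
    simp only [pr_cons, pr_nil, mul_one]
    rw [map_mul, m.cj_ev, m.cj_ev, ← h1, ← h2]
    have : ∀ A B C : MulAut SL2, A * X * B⁻¹ * (B * X * C⁻¹) = A * (X * X) * C⁻¹ := by
      intro A B C; group
    rw [this, XX, mul_one]
  rcases h3 with h3 | ⟨h3, h4⟩
  · refine ⟨p.c + m.δ p.lab - q.c, ?_⟩
    rw [key, h3, V_nil, V_nil, Yp_sub]
  · refine ⟨0, ?_⟩
    rw [key, h2, m.δ_false h3, m.δ_false h4]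
    simp

theorem BL.rot {l : List Item} (h : m.BL l) : ∃ e, cj (pr (l.map m.ev)) = Yp e := by
  induction h with
  | nil => exact ⟨0, by simp⟩
  | @cons p q l h _ ih =>
    obtain ⟨e, he⟩ := h.rot
    obtain ⟨f, hf⟩ := ih
    refine ⟨e + f, ?_⟩
    rw [Yp_add, ← he, ← hf, ← map_mul]
    simp [mul_assoc]

/-- The block moves to the front. -/
theorem block_front {p q : Item} (h : m.Blk p q) (l₁ l₂ : List Item) :
    ∃ l', Hur ((l₁ ++ p :: q :: l₂).map m.ev) ((p :: q :: l').map m.ev) ∧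
      sz l' = sz l₁ + sz l₂ := by
  obtain ⟨e, he⟩ := h.rot
  refine ⟨l₁.map (sh (-e)) ++ l₂, ?_, by rw [sz_append, sz_sh]⟩
  have := (Hur.exchR (l₁.map m.ev) [m.ev p, m.ev q]).right (l₂.map m.ev)
  rw [m.cL_ev (cj_inv_eq he)] at this
  simpa using this

/-- The exchange at a strict junction, of the first kind. -/
theorem junc_before (p q : Item) (h : Before p.path p.c q.path) (l : List (Lab × SL2)) :
    ∃ q' : Item, Hur (m.ev p :: m.ev q :: l) (m.ev q' :: m.ev p :: l) ∧
      q'.path.length < q.path.length := by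
  obtain ⟨k, hk⟩ := h
  refine ⟨gi q.lab p.path (p.c + m.δ p.lab) k q.c, ?_, ?_⟩
  · have h1 := Hur.swapL (m.ev p) (m.ev q) l
    have h2 : (((m.ev q).1, (m.ev p).2 * (m.ev q).2 * (m.ev p).2⁻¹) : Lab × SL2) =
        m.ev (gi q.lab p.path (p.c + m.δ p.lab) k q.c) := by
      rw [ev_gi]
      have : (m.ev p).2 * (m.ev q).2 * (m.ev p).2⁻¹ = cj (m.ev p).2 (m.ev q).2 := rfl
      rw [this, m.cj_ev]
      unfold ev
      simp only
      rw [hk, V_mid]
      congr 1
      have : V p.path (p.c + m.δ p.lab) * X * (V p.path p.c)⁻¹ * (V p.path p.c * X * V k q.c) =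
          V p.path (p.c + m.δ p.lab) * V k q.c := by
        have : ∀ A B C : MulAut SL2, A * X * B⁻¹ * (B * X * C) = A * (X * X) * C := by
          intro A B C; group
        rw [this, XX, mul_one]
      rw [← MulAut.mul_apply, this]
      rfl
    rw [← h2]
    exact h1
  · rw [length_gi, hk]; simp

/-- The exchange at a strict junction, of the second kind. -/
theorem junc_after (p q : Item) (h : Before q.path (q.c + m.δ q.lab) p.path)
    (l : List (Lab × SL2)) :
    ∃ p' : Item, Hur (m.ev p :: m.ev q :: l) (m.ev q :: m.ev p' :: l) ∧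
      p'.path.length < p.path.length := by
  obtain ⟨k, hk⟩ := h
  refine ⟨gi p.lab q.path q.c k p.c, ?_, ?_⟩
  · have h1 := Hur.swapR (m.ev p) (m.ev q) l
    have h2 : (((m.ev p).1, (m.ev q).2⁻¹ * (m.ev p).2 * (m.ev q).2) : Lab × SL2) =
        m.ev (gi p.lab q.path q.c k p.c) := by
      rw [ev_gi]
      have : (m.ev q).2⁻¹ * (m.ev p).2 * (m.ev q).2 = cj (m.ev q).2⁻¹ (m.ev p).2 := by
        rw [cj_apply]; simp
      rw [this, map_inv, m.cj_ev]
      unfold ev
      simp only
      rw [hk, V_mid]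
      congr 1
      have : (V q.path (q.c + m.δ q.lab) * X * (V q.path q.c)⁻¹)⁻¹ *
          (V q.path (q.c + m.δ q.lab) * X * V k p.c) = V q.path q.c * V k p.c := by
        have : ∀ A B C : MulAut SL2, (A * X * B⁻¹)⁻¹ * (A * X * C) = B * C := by
          intro A B C; group
        rw [this]
      rw [← MulAut.mul_apply, this]
      rfl
    rw [← h2]
    exact h1
  · rw [length_gi, hk]; simp

/-- Two reduced items with equal junction away from the base. -/
theorem junc_equal (p q : Item) (hp : m.Red p) (hq : m.Red q) (h1 : p.path = q.path)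
    (h2 : p.c = q.c + m.δ q.lab) (hb : ¬ m.Blk p q) (l : List (Lab × SL2)) :
    (∃ q' : Item, Hur (m.ev p :: m.ev q :: l) (m.ev q' :: m.ev p :: l) ∧
      q'.path.length < q.path.length) ∨
    (∃ p' : Item, Hur (m.ev p :: m.ev q :: l) (m.ev q :: m.ev p' :: l) ∧
      p'.path.length < p.path.length) := by
  obtain ⟨s, k, c⟩ := p
  obtain ⟨t, k', c'⟩ := q
  simp only at h1 h2
  subst h1
  have hne : k ≠ [] := by
    intro h
    exact hb ⟨rfl, h2, Or.inl h⟩
  obtain ⟨k₀, d, rfl⟩ : ∃ k₀ d, k = k₀ ++ [d] := by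
    rcases List.eq_nil_or_concat k with h | ⟨k₀, d, h⟩
    · exact absurd h hne
    · exact ⟨k₀, d, by rw [h, List.concat_eq_append]⟩
  have hlast : ∀ (f : ZMod 3), NZ (k₀ ++ [d] ++ [f]).tail → f ≠ 0 := by
    intro f hf
    apply hf
    rw [List.tail_append_of_ne_nil (by simp)]
    simp
  have hc : c ≠ 0 := hlast _ hp.1
  have hcs : c + m.δ s ≠ 0 := hlast _ hp.2
  have hc' : c' ≠ 0 := hlast _ hq.1
  cases hs : m.D s with
  | true =>
    rw [m.δ_true hs] at hcs
    cases ht : m.D t with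
    | true =>
      rw [m.δ_true ht] at h2
      exfalso
      have key : ∀ c c' : ZMod 3, c ≠ 0 → c + -1 ≠ 0 → c' ≠ 0 → c = c' + -1 → False := by decide
      exact key c c' hc hcs hc' h2
    | false =>
      right
      rw [m.δ_false ht, add_zero] at h2
      subst h2
      have hev : (((m.ev ⟨s, k₀ ++ [d], c⟩).1, (m.ev ⟨t, k₀ ++ [d], c⟩).2⁻¹ *
          (m.ev ⟨s, k₀ ++ [d], c⟩).2 * (m.ev ⟨t, k₀ ++ [d], c⟩).2) : Lab × SL2) =
          m.ev ⟨s, k₀ ++ [d], 0⟩ := by
        have : (m.ev ⟨t, k₀ ++ [d], c⟩).2⁻¹ * (m.ev ⟨s, k₀ ++ [d], c⟩).2 *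
            (m.ev ⟨t, k₀ ++ [d], c⟩).2 =
            cj (m.ev ⟨t, k₀ ++ [d], c⟩).2⁻¹ (m.ev ⟨s, k₀ ++ [d], c⟩).2 := by
          rw [cj_apply]; simp
        rw [this, map_inv, m.cj_ev]
        have hc2 : c = -1 := by
          have key : ∀ c : ZMod 3, c ≠ 0 → c + -1 ≠ 0 → c = -1 := by decide
          exact key c hc hcs
        subst hc2
        unfold ev
        simp only
        rw [m.δ_false ht, add_zero, m.hD s hs]
        congr 1
        rw [← MulAut.mul_apply]
        have : (V (k₀ ++ [d]) (-1) * X * (V (k₀ ++ [d]) (-1))⁻¹)⁻¹ * V (k₀ ++ [d]) (-1) =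
            V (k₀ ++ [d]) (-1) * X⁻¹ := by group
        rw [this, X_inv, MulAut.mul_apply, X_a]
        have : (0 : ZMod 3) = -1 + 1 := by decide
        conv_rhs => rw [this, V_add, Yp_one]
        rfl
      obtain ⟨p', hp', hl'⟩ := m.shorten_last s k₀ d 0 (Or.inl rfl)
      refine ⟨p', ?_, hl'⟩
      rw [hp', ← hev]
      exact Hur.swapR _ _ _
  | false =>
    cases ht : m.D t with
    | false => exact absurd ⟨rfl, h2, Or.inr ⟨hs, ht⟩⟩ hb
    | true =>
      left
      rw [m.δ_true ht] at h2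
      have hc1 : c = 1 ∧ c' = -1 := by
        have key : ∀ c c' : ZMod 3, c ≠ 0 → c' ≠ 0 → c = c' + -1 → c = 1 ∧ c' = -1 := by decide
        exact key c c' hc hc' h2
      obtain ⟨rfl, rfl⟩ := hc1
      have hev : (((m.ev ⟨t, k₀ ++ [d], -1⟩).1, (m.ev ⟨s, k₀ ++ [d], 1⟩).2 *
          (m.ev ⟨t, k₀ ++ [d], -1⟩).2 * (m.ev ⟨s, k₀ ++ [d], 1⟩).2⁻¹) : Lab × SL2) =
          m.ev ⟨t, k₀ ++ [d], 1⟩ := by
        have : (m.ev ⟨s, k₀ ++ [d], 1⟩).2 * (m.ev ⟨t, k₀ ++ [d], -1⟩).2 *
            (m.ev ⟨s, k₀ ++ [d], 1⟩).2⁻¹ =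
            cj (m.ev ⟨s, k₀ ++ [d], 1⟩).2 (m.ev ⟨t, k₀ ++ [d], -1⟩).2 := rfl
        rw [this, m.cj_ev]
        unfold ev
        simp only
        rw [m.δ_false hs, add_zero, m.hD t ht]
        congr 1
        have h3 : (-1 : ZMod 3) = 1 + 1 := by decide
        conv_lhs => rw [h3, V_add, Yp_one]
        rw [← MulAut.mul_apply]
        have : V (k₀ ++ [d]) 1 * X * (V (k₀ ++ [d]) 1)⁻¹ * (V (k₀ ++ [d]) 1 * Y) =
            V (k₀ ++ [d]) 1 * X * Y := by group
        rw [this, MulAut.mul_apply, MulAut.mul_apply, X_Ya]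
      obtain ⟨q', hq', hl'⟩ := m.shorten_last t k₀ d 1 (Or.inr (by rw [m.δ_true ht]; decide))
      refine ⟨q', ?_, hl'⟩
      rw [hq', ← hev]
      exact Hur.swapL _ _ _

/-- One reduction step. -/
theorem step (l : List Item) (h : ¬ m.Irr l) :
    (∃ l', Hur (l.map m.ev) (l'.map m.ev) ∧ sz l' < sz l) ∨
    (∃ p q l', m.Blk p q ∧ Hur (l.map m.ev) ((p :: q :: l').map m.ev) ∧
      sz (p :: q :: l') ≤ sz l) := by
  by_cases hr : ∀ p ∈ l, m.Red p
  · have hc : ¬ l.IsChain (fun p q => ¬ m.Junc p q) := fun hc => h ⟨hc, hr⟩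
    obtain ⟨l₁, p, q, l₂, rfl, hj⟩ := exists_adj _ _ hc
    rw [not_not] at hj
    by_cases hb : m.Blk p q
    · right
      obtain ⟨l', h1, h2⟩ := m.block_front hb l₁ l₂
      refine ⟨p, q, l', hb, h1, ?_⟩
      simp only [sz_cons, sz_append, h2]; omega
    · left
      have hp := hr p (by simp)
      have hq := hr q (by simp)
      have key : (∃ q' : Item, Hur (m.ev p :: m.ev q :: l₂.map m.ev)
            (m.ev q' :: m.ev p :: l₂.map m.ev) ∧ q'.path.length < q.path.length) ∨
          (∃ p' : Item, Hur (m.ev p :: m.ev q :: l₂.map m.ev)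
            (m.ev q :: m.ev p' :: l₂.map m.ev) ∧ p'.path.length < p.path.length) := by
        rcases hj with ⟨h1, h2⟩ | hj | hj
        · exact m.junc_equal p q hp hq h1 h2 hb _
        · exact Or.inl (m.junc_before p q hj _)
        · exact Or.inr (m.junc_after p q hj _)
      rcases key with ⟨q', h1, h2⟩ | ⟨p', h1, h2⟩
      · refine ⟨l₁ ++ q' :: p :: l₂, ?_, ?_⟩
        · simpa using h1.left (l₁.map m.ev)
        · simp only [sz_cons, sz_append]; omega
      · refine ⟨l₁ ++ q :: p' :: l₂, ?_, ?_⟩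
        · simpa using h1.left (l₁.map m.ev)
        · simp only [sz_cons, sz_append]; omega
  · left
    push Not at hr
    obtain ⟨p, hp, hr⟩ := hr
    obtain ⟨l₁, l₂, rfl⟩ := List.append_of_mem hp
    obtain ⟨p', h1, h2⟩ := m.shorten hr
    refine ⟨l₁ ++ p' :: l₂, ?_, ?_⟩
    · simp [h1]; exact Hur.refl _
    · simp only [sz_cons, sz_append]; omega

/-- Every list of items is equivalent to a list of blocks followed by an irreducible list. -/
theorem reduce (l : List Item) :
    ∃ B l', m.BL B ∧ m.Irr l' ∧ Hur (l.map m.ev) ((B ++ l').map m.ev) ∧ sz (B ++ l') ≤ sz l := by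
  induction hn : sz l using Nat.strong_induction_on generalizing l with
  | _ n ih =>
    subst hn
    by_cases h : m.Irr l
    · exact ⟨[], l, .nil, h, Hur.refl _, le_rfl⟩
    · rcases m.step l h with ⟨l', h1, h2⟩ | ⟨p, q, l', hb, h1, h2⟩
      · obtain ⟨B, l'', hB, hI, hH, hs⟩ := ih _ h2 l' rfl
        exact ⟨B, l'', hB, hI, h1.trans hH, by omega⟩
      · have h3 : sz l' < sz l := by simp only [sz_cons] at h2; omega
        obtain ⟨B, l'', hB, hI, hH, hs⟩ := ih _ h3 l' rfl
        refine ⟨p :: q :: B, l'', .cons hb hB, hI, h1.trans ?_, ?_⟩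
        · simpa using hH.left [m.ev p, m.ev q]
        · simp only [sz_cons, List.cons_append] at h2 ⊢; omega

/-- The product of an irreducible list. -/
theorem Irr.cj_pr {E : MulAut SL2} : ∀ (l : List Item) (p : Item), m.Irr (p :: l) →
    NotX ((V ((p :: l).getLast (by simp)).path ((p :: l).getLast (by simp)).c)⁻¹ * E) →
    ∃ n, NotX n ∧ cj (pr ((p :: l).map m.ev)) * E = V p.path (p.c + m.δ p.lab) * X * n := by
  intro l
  induction l with
  | nil =>
    intro p hI hE
    refine ⟨_, hE, ?_⟩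
    simp only [List.map_cons, List.map_nil, pr_cons, pr_nil, mul_one, List.getLast_singleton]
    rw [m.cj_ev]; group
  | cons q l ih =>
    intro p hI hE
    have hI' : m.Irr (q :: l) := ⟨hI.1.tail, fun r hr => hI.2 r (List.mem_cons_of_mem _ hr)⟩
    obtain ⟨n, hn, hp⟩ := ih q hI' (by simpa [List.getLast_cons] using hE)
    have hj : ¬ m.Junc p q := by
      have := hI.1
      rw [List.isChain_cons_cons] at this
      exact this.1
    have hrp := hI.2 p (by simp)
    have hrq := hI.2 q (by simp)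
    refine ⟨_, lem4 p.path q.path p.c (q.c + m.δ q.lab) hrp.1 hrq.2 hj hn, ?_⟩
    rw [List.map_cons, pr_cons, map_mul, mul_assoc, hp, m.cj_ev]
    group

theorem Irr.cj_ne {l : List Item} {p : Item} (h : m.Irr (p :: l)) (e : ZMod 3) :
    cj (pr ((p :: l).map m.ev)) ≠ Yp e := by
  obtain ⟨n, hn, hp⟩ := Irr.cj_pr (E := 1) m l p h (by
    rw [mul_one]
    exact lem3 _ _ (h.2 _ (List.getLast_mem (by simp))).1)
  intro he
  rw [mul_one, he] at hp
  exact lem5 _ _ (h.2 p (by simp)).2 hn e hp.symm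

/-- If the product rotates about the base vertex, everything is a block. -/
theorem all_blocks (l : List Item) {e : ZMod 3} (h : cj (pr (l.map m.ev)) = Yp e) :
    ∃ B, m.BL B ∧ Hur (l.map m.ev) (B.map m.ev) ∧ sz B ≤ sz l := by
  obtain ⟨B, l', hB, hI, hH, hs⟩ := m.reduce l
  cases l' with
  | nil => exact ⟨B, hB, by simpa using hH, by simpa using hs⟩
  | cons p l' =>
    exfalso
    obtain ⟨f, hf⟩ := hB.rot
    have h1 := hH.pr_eq
    rw [h1, List.map_append, pr_append, map_mul, hf] at h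
    have : cj (pr ((p :: l').map m.ev)) = Yp (-f + e) := by
      rw [Yp_add, Yp_neg, ← h]; group
    exact Irr.cj_ne m hI _ this

end Model

end Run7.h371
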