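import Mathlib
import Pool.Agent.Run7.h371.Reduce

/-!
# Normal forms of lists of blocks
-/

set_option autoImplicit false

namespace Run7.h371

theorem Yp_two : Yp 2 = Y * Y := by
  have : (2 : ZMod 3) = 1 + 1 := by decide
  rw [this, Yp_add, Yp_one]

theorem Y_apply (g : SL2) : Y g = y * g * y⁻¹ := rfl

theorem V_inner (l : List (ZMod 3)) (c : ZMod 3) : ∃ g, V l c = cj g := by
  have hY : ∀ c, ∃ g, Yp c = cj g := fun c => ⟨y ^ c.val, by rw [map_pow]; rfl⟩
  induction l with
  | nil => rw [V_nil]; exact hY c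
  | cons d l ih =>
    obtain ⟨g, hg⟩ := ih
    obtain ⟨h, hh⟩ := hY d
    refine ⟨h * x * g, ?_⟩
    rw [V_cons, hg, hh, map_mul, map_mul]; rfl

/-- The two possible elliptic elements. -/
def xe : Bool → SL2
  | true => x
  | false => x⁻¹

theorem X_xe (e : Bool) : X (xe e) = xe e := by
  cases e
  · exact X_xinv
  · exact X_x

/-- The models that are used. -/
def md (e₀ e₁ : Bool) : Model where
  M := fun
    | .nod => a
    | .zero => xe e₀
    | .inf => xe e₁
  D := fun
    | .nod => true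
    | .zero => false
    | .inf => false
  hD := by
    intro l; cases l <;> simp
  hE := by
    intro l
    cases l
    · simp
    · cases e₀ <;> simp [xe]
    · cases e₁ <;> simp [xe]

/-- The ordinary entry at the base. -/
def P (c : ZMod 3) : Lab × SL2 := (.nod, Yp c a)

theorem P_zero : P 0 = (.nod, a) := by simp [P]
theorem P_one : P 1 = (.nod, b) := by
  have : Y a = b := by rw [Y_apply]; decide
  simp [P, Yp_one, this]

/-- The special entry at the base. -/
def Q (s : Lab) (e : Bool) (c : ZMod 3) : Lab × SL2 := (s, Yp c (xe e))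

theorem Q_zero (s : Lab) (e : Bool) : Q s e 0 = (s, xe e) := by simp [Q]

/-- Rotation of a block of two ordinary entries. -/
theorem dd_rot (c : ZMod 3) : Hur [P c, P (c + 1)] [P (c + 1), P (c + 1 + 1)] := by
  refine (Hur.swapR _ _ _).trans (Hur.of_eq ?_)
  have : ((P (c + 1)).2⁻¹ * (P c).2 * (P (c + 1)).2) = (P (c + 1 + 1)).2 := by
    unfold P
    simp only
    rw [Yp_add (c + 1), Yp_add c, Yp_one]
    simp only [MulAut.mul_apply]
    rw [← map_inv, ← map_mul, ← map_mul]
    congr 1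
    simp only [Y_apply]
    decide
  rw [this]; rfl

theorem dd_norm (c : ZMod 3) : Hur [P c, P (c + 1)] [P 0, P 1] := by
  have h0 := dd_rot 0
  have h1 := dd_rot 1
  have h2 := dd_rot 2
  have e1 : (1 : ZMod 3) + 1 = 2 := by decide
  have e2 : (2 : ZMod 3) + 1 = 0 := by decide
  have e0 : (0 : ZMod 3) + 1 = 1 := by decide
  rw [e2, e0] at h2
  rw [e1, e2] at h1
  have hc : c = 0 ∨ c = 1 ∨ c = 2 := by revert c; decide
  rcases hc with rfl | rfl | rfl
  · rw [e0]; exact Hur.refl _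
  · rw [e1]; exact h1.trans h2
  · rw [e2]; exact h2

/-- From ordinary-special to special-ordinary. -/
theorem de_ed (s : Lab) (e : Bool) (c : ZMod 3) :
    Hur [P c, Q s e c] [Q s e c, P (c + 1)] := by
  refine (Hur.swapR _ _ _).trans (Hur.of_eq ?_)
  have : ((Q s e c).2⁻¹ * (P c).2 * (Q s e c).2) = (P (c + 1)).2 := by
    unfold P Q
    simp only
    rw [Yp_add, Yp_one, MulAut.mul_apply, ← map_inv, ← map_mul, ← map_mul]
    congr 1
    simp only [Y_apply]
    cases e <;> decide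
  rw [this]; rfl

/-- From special-ordinary to ordinary-special. -/
theorem ed_de (s : Lab) (e : Bool) (c : ZMod 3) :
    Hur [Q s e c, P (c + 1)] [P (c + 1), Q s e (c + 1)] := by
  refine (Hur.swapR _ _ _).trans (Hur.of_eq ?_)
  have : ((P (c + 1)).2⁻¹ * (Q s e c).2 * (P (c + 1)).2) = (Q s e (c + 1)).2 := by
    unfold P Q
    simp only
    rw [Yp_add, Yp_one, MulAut.mul_apply, MulAut.mul_apply, ← map_inv, ← map_mul, ← map_mul]
    congr 1
    simp only [Y_apply]
    cases e <;> decide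
  rw [this]; rfl

theorem de_norm (s : Lab) (e : Bool) (c : ZMod 3) : Hur [P c, Q s e c] [P 0, Q s e 0] := by
  have h : ∀ c, Hur [P c, Q s e c] [P (c + 1), Q s e (c + 1)] := fun c =>
    (de_ed s e c).trans (ed_de s e c)
  have h1 := h 1
  have h2 := h 2
  have e1 : (1 : ZMod 3) + 1 = 2 := by decide
  have e2 : (2 : ZMod 3) + 1 = 0 := by decide
  rw [e2] at h2
  rw [e1] at h1
  have hc : c = 0 ∨ c = 1 ∨ c = 2 := by revert c; decide
  rcases hc with rfl | rfl | rfl
  · exact Hur.refl _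
  · exact h1.trans h2
  · exact h2

theorem ed_norm (s : Lab) (e : Bool) (c : ZMod 3) : Hur [Q s e c, P (c + 1)] [P 0, Q s e 0] :=
  (ed_de s e c).trans (de_norm s e (c + 1))

/-- The list of `n` standard blocks. -/
def DD : ℕ → List (Lab × SL2)
  | 0 => []
  | n + 1 => (.nod, a) :: (.nod, b) :: DD n

theorem length_DD (n : ℕ) : (DD n).length = 2 * n := by
  induction n with
  | zero => rfl
  | succ n ih => simp [DD, ih]; ring

/-- The first normal form. -/
theorem dd_de (s : Lab) (e : Bool) :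
    Hur ([P 0, P 1] ++ [P 0, Q s e 0]) ([P 0, Q s e 0] ++ [P 0, P 1]) := by
  refine (Hur.exchL _ _).trans ?_
  have hpr : pr [P 0, P 1] = y := by
    rw [P_zero, P_one]; simp [ab]
  rw [hpr]
  have h1 : cL y [P 0, Q s e 0] = [P 1, Q s e 1] := by
    simp only [cL_cons, cL_nil]
    unfold P Q
    rw [Yp_one, Yp_zero]; rfl
  rw [h1]
  exact (de_norm s e 1).right _

theorem xe_mul_central (e₀ e₁ : Bool) (g h : SL2) :
    (g * xe e₀ * g⁻¹) * (g * xe e₁ * g⁻¹) * h = h * ((g * xe e₀ * g⁻¹) * (g * xe e₁ * g⁻¹)) := by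
  have : xe e₀ * xe e₁ = 1 ∨ xe e₀ * xe e₁ = -1 := by
    cases e₀ <;> cases e₁ <;> decide
  have e : (g * xe e₀ * g⁻¹) * (g * xe e₁ * g⁻¹) = g * (xe e₀ * xe e₁) * g⁻¹ := by group
  rw [e]
  rcases this with h1 | h1 <;> rw [h1] <;> simp

theorem xe_comm (e₀ e₁ : Bool) (g : SL2) :
    (g * xe e₀ * g⁻¹) * (g * xe e₁ * g⁻¹) * (g * xe e₀ * g⁻¹)⁻¹ = g * xe e₁ * g⁻¹ := by
  have : xe e₀ * xe e₁ * (xe e₀)⁻¹ = xe e₁ := by
    cases e₀ <;> cases e₁ <;> decide
  conv_rhs => rw [← this]
  group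

/-- The list of two special entries. -/
def EE (g : SL2) (e₀ e₁ : Bool) : List (Lab × SL2) :=
  [(.zero, g * xe e₀ * g⁻¹), (.inf, g * xe e₁ * g⁻¹)]

theorem ee_central (g : SL2) (e₀ e₁ : Bool) (k : List (Lab × SL2)) :
    Hur (EE g e₀ e₁ ++ k) (k ++ EE g e₀ e₁) := by
  apply Hur.central
  intro h
  simp only [EE, pr_cons, pr_nil, mul_one]
  exact xe_mul_central _ _ _ _

theorem ee_swap (g : SL2) (e₀ e₁ : Bool) :
    Hur [(Lab.inf, g * xe e₁ * g⁻¹), (Lab.zero, g * xe e₀ * g⁻¹)] (EE g e₀ e₁) := by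
  refine (Hur.swapL _ _ _).trans (Hur.of_eq ?_)
  simp only
  rw [xe_comm]; rfl

section

variable (e₀ e₁ : Bool)

/-- The four kinds of blocks, brought to normal form. -/
theorem blk_cases {p q : Item} (h : (md e₀ e₁).Blk p q) :
    (p.lab = .nod ∧ q.lab = .nod ∧ Hur [(md e₀ e₁).ev p, (md e₀ e₁).ev q] [P 0, P 1]) ∨
    (((p.lab = .nod ∧ q.lab = .zero) ∨ (p.lab = .zero ∧ q.lab = .nod)) ∧
      Hur [(md e₀ e₁).ev p, (md e₀ e₁).ev q] [P 0, Q .zero e₀ 0]) ∨
    (((p.lab = .nod ∧ q.lab = .inf) ∨ (p.lab = .inf ∧ q.lab = .nod)) ∧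
      Hur [(md e₀ e₁).ev p, (md e₀ e₁).ev q] [P 0, Q .inf e₁ 0]) ∨
    (((p.lab = .zero ∧ q.lab = .inf) ∨ (p.lab = .inf ∧ q.lab = .zero)) ∧
      ∃ g, Hur [(md e₀ e₁).ev p, (md e₀ e₁).ev q] (EE g e₀ e₁)) ∨
    (p.lab = .zero ∧ q.lab = .zero) ∨ (p.lab = .inf ∧ q.lab = .inf) := by
  obtain ⟨s, k, c⟩ := p
  obtain ⟨t, k', c'⟩ := q
  obtain ⟨h1, h2, h3⟩ := h
  simp only at h1 h2 h3
  subst h1
  have dn : (md e₀ e₁).δ Lab.nod = -1 := rfl
  have dz : (md e₀ e₁).δ Lab.zero = 0 := rfl
  have di : (md e₀ e₁).δ Lab.inf = 0 := rfl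
  have Dn : (md e₀ e₁).D Lab.nod = true := rfl
  have Dz : (md e₀ e₁).D Lab.zero = false := rfl
  have Di : (md e₀ e₁).D Lab.inf = false := rfl
  have en : ∀ c, (md e₀ e₁).ev ⟨.nod, [], c⟩ = P c := by
    intro c; unfold Model.ev P; simp only [V_nil]; rfl
  have ez : ∀ c, (md e₀ e₁).ev ⟨.zero, [], c⟩ = Q .zero e₀ c := by
    intro c; unfold Model.ev Q; simp only [V_nil]; rfl
  have ei : ∀ c, (md e₀ e₁).ev ⟨.inf, [], c⟩ = Q .inf e₁ c := by
    intro c; unfold Model.ev Q; simp only [V_nil]; rfl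
  cases s with
  | nod =>
    simp only [Dn, Bool.true_eq_false, false_and, or_false] at h3
    subst h3
    cases t with
    | nod =>
      left
      rw [dn] at h2
      refine ⟨rfl, rfl, ?_⟩
      have : c' = c + 1 := by rw [h2]; ring
      subst this
      rw [en, en]
      exact dd_norm c
    | zero =>
      right; left
      rw [dz, add_zero] at h2
      subst h2
      refine ⟨Or.inl ⟨rfl, rfl⟩, ?_⟩
      rw [en, ez]
      exact de_norm _ _ _
    | inf =>
      right; right; left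
      rw [di, add_zero] at h2
      subst h2
      refine ⟨Or.inl ⟨rfl, rfl⟩, ?_⟩
      rw [en, ei]
      exact de_norm _ _ _
  | zero =>
    cases t with
    | nod =>
      right; left
      simp only [Dn, Bool.true_eq_false, and_false, or_false] at h3
      subst h3
      rw [dn] at h2
      refine ⟨Or.inr ⟨rfl, rfl⟩, ?_⟩
      have : c' = c + 1 := by rw [h2]; ring
      subst this
      rw [en, ez]
      exact ed_norm _ _ _
    | zero => right; right; right; right; left; exact ⟨rfl, rfl⟩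
    | inf =>
      right; right; right; left
      rw [di, add_zero] at h2
      subst h2
      refine ⟨Or.inl ⟨rfl, rfl⟩, ?_⟩
      obtain ⟨g, hg⟩ := V_inner k c
      refine ⟨g, ?_⟩
      unfold Model.ev
      simp only [hg]
      exact Hur.refl _
  | inf =>
    cases t with
    | nod =>
      right; right; left
      simp only [Dn, Bool.true_eq_false, and_false, or_false] at h3
      subst h3
      rw [dn] at h2
      refine ⟨Or.inr ⟨rfl, rfl⟩, ?_⟩
      have : c' = c + 1 := by rw [h2]; ring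
      subst this
      rw [en, ei]
      exact ed_norm _ _ _
    | zero =>
      right; right; right; left
      rw [dz, add_zero] at h2
      subst h2
      refine ⟨Or.inr ⟨rfl, rfl⟩, ?_⟩
      obtain ⟨g, hg⟩ := V_inner k c
      refine ⟨g, ?_⟩
      unfold Model.ev
      simp only [hg]
      exact ee_swap _ _ _
    | inf => right; right; right; right; right; exact ⟨rfl, rfl⟩

theorem DD_succ (n : ℕ) : DD (n + 1) = [P 0, P 1] ++ DD n := by
  rw [P_zero, P_one]; rfl

theorem norm_none {B : List Item} (h : (md e₀ e₁).BL B)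
    (h0 : (B.map Item.lab).count .zero = 0) (h1 : (B.map Item.lab).count .inf = 0) :
    ∃ n, B.length = 2 * n ∧ Hur (B.map (md e₀ e₁).ev) (DD n) := by
  induction h with
  | nil => exact ⟨0, rfl, Hur.refl _⟩
  | @cons p q l h _ ih =>
    simp only [List.map_cons, List.count_cons] at h0 h1
    obtain ⟨n, hn, hH⟩ := ih (by omega) (by omega)
    refine ⟨n + 1, by simp [hn]; ring, ?_⟩
    rcases blk_cases e₀ e₁ h with ⟨hp, hq, hh⟩ | ⟨hp | hp, _⟩ | ⟨hp | hp, _⟩ | ⟨hp | hp, _⟩ | hp | hp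
    · rw [DD_succ]
      exact hh.append hH
    all_goals
      exfalso
      simp [hp.1, hp.2] at h0 h1

theorem norm_zero {B : List Item} (h : (md e₀ e₁).BL B)
    (h0 : (B.map Item.lab).count .zero = 1) (h1 : (B.map Item.lab).count .inf = 0) :
    ∃ n, B.length = 2 * n + 2 ∧
      Hur (B.map (md e₀ e₁).ev) ([P 0, Q .zero e₀ 0] ++ DD n) := by
  induction h with
  | nil => simp at h0
  | @cons p q l h hl ih =>
    simp only [List.map_cons, List.count_cons] at h0 h1
    rcases blk_cases e₀ e₁ h with ⟨hp, hq, hh⟩ | ⟨hp, hh⟩ | ⟨hp | hp, _⟩ | ⟨hp | hp, _⟩ | hp | hp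
    · simp only [hp, hq] at h0 h1
      obtain ⟨n, hn, hH⟩ := ih (by simpa using h0) (by simpa using h1)
      refine ⟨n + 1, by simp [hn]; ring, ?_⟩
      refine (hh.append hH).trans ?_
      have := (dd_de .zero e₀).right (DD n)
      rw [DD_succ]
      simpa using this
    · have : (l.map Item.lab).count .zero = 0 ∧ (l.map Item.lab).count .inf = 0 := by
        rcases hp with ⟨hp, hq⟩ | ⟨hp, hq⟩ <;> simp [hp, hq] at h0 h1 <;>
          constructor <;> simp [h0, h1]
      obtain ⟨n, hn, hH⟩ := norm_none e₀ e₁ hl this.1 this.2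
      exact ⟨n, by simp [hn], hh.append hH⟩
    all_goals
      exfalso
      simp [hp.1, hp.2] at h0 h1

theorem norm_inf {B : List Item} (h : (md e₀ e₁).BL B)
    (h0 : (B.map Item.lab).count .zero = 0) (h1 : (B.map Item.lab).count .inf = 1) :
    ∃ n, B.length = 2 * n + 2 ∧
      Hur (B.map (md e₀ e₁).ev) ([P 0, Q .inf e₁ 0] ++ DD n) := by
  induction h with
  | nil => simp at h1
  | @cons p q l h hl ih =>
    simp only [List.map_cons, List.count_cons] at h0 h1
    rcases blk_cases e₀ e₁ h with ⟨hp, hq, hh⟩ | ⟨hp | hp, _⟩ | ⟨hp, hh⟩ | ⟨hp | hp, _⟩ | hp | hp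
    · simp only [hp, hq] at h0 h1
      obtain ⟨n, hn, hH⟩ := ih (by simpa using h0) (by simpa using h1)
      refine ⟨n + 1, by simp [hn]; ring, ?_⟩
      refine (hh.append hH).trans ?_
      have := (dd_de .inf e₁).right (DD n)
      rw [DD_succ]
      simpa using this
    · exfalso
      simp [hp.1, hp.2] at h0 h1
    · exfalso
      simp [hp.1, hp.2] at h0 h1
    · have : (l.map Item.lab).count .zero = 0 ∧ (l.map Item.lab).count .inf = 0 := by
        rcases hp with ⟨hp, hq⟩ | ⟨hp, hq⟩ <;> simp [hp, hq] at h0 h1 <;>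
          constructor <;> simp [h0, h1]
      obtain ⟨n, hn, hH⟩ := norm_none e₀ e₁ hl this.1 this.2
      exact ⟨n, by simp [hn], hh.append hH⟩
    all_goals
      exfalso
      simp [hp.1, hp.2] at h0 h1

theorem norm_both {B : List Item} (h : (md e₀ e₁).BL B)
    (h0 : (B.map Item.lab).count .zero = 1) (h1 : (B.map Item.lab).count .inf = 1) :
    ∃ n g, B.length = 2 * n + 2 ∧
      Hur (B.map (md e₀ e₁).ev) (EE g e₀ e₁ ++ DD n) := by
  have hEE : EE 1 e₀ e₁ = [Q .zero e₀ 0, Q .inf e₁ 0] := by simp [EE, Q_zero]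
  induction h with
  | nil => simp at h1
  | @cons p q l h hl ih =>
    simp only [List.map_cons, List.count_cons] at h0 h1
    rcases blk_cases e₀ e₁ h with ⟨hp, hq, hh⟩ | ⟨hp, hh⟩ | ⟨hp, hh⟩ | ⟨hp, g, hh⟩ | hp | hp
    · simp only [hp, hq] at h0 h1
      obtain ⟨n, g, hn, hH⟩ := ih (by simpa using h0) (by simpa using h1)
      refine ⟨n + 1, g, by simp [hn]; ring, ?_⟩
      refine (hh.append hH).trans ?_
      have := ((ee_central g e₀ e₁ [P 0, P 1]).symm).right (DD n)
      rw [DD_succ]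
      simpa using this
    · have : (l.map Item.lab).count .zero = 0 ∧ (l.map Item.lab).count .inf = 1 := by
        rcases hp with ⟨hp, hq⟩ | ⟨hp, hq⟩ <;> simp [hp, hq] at h0 h1 <;>
          constructor <;> simp [h0, h1]
      obtain ⟨n, hn, hH⟩ := norm_inf e₀ e₁ hl this.1 this.2
      refine ⟨n + 1, 1, by simp [hn]; ring, ?_⟩
      refine (hh.append hH).trans ?_
      have h2 : Hur ([P 0, Q .zero e₀ 0] ++ ([P 0, Q .inf e₁ 0] ++ DD n))
          ([P 0, Q .zero e₀ 0] ++ ([Q .inf e₁ 0, P (0 + 1)] ++ DD n)) :=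
        ((de_ed .inf e₁ 0).right (DD n)).left _
      refine h2.trans ?_
      have h3 := (ee_central 1 e₀ e₁ [P 0]).symm.right ([P 1] ++ DD n)
      rw [DD_succ]
      rw [hEE] at h3 ⊢
      simpa using h3
    · have : (l.map Item.lab).count .zero = 1 ∧ (l.map Item.lab).count .inf = 0 := by
        rcases hp with ⟨hp, hq⟩ | ⟨hp, hq⟩ <;> simp [hp, hq] at h0 h1 <;>
          constructor <;> simp [h0, h1]
      obtain ⟨n, hn, hH⟩ := norm_zero e₀ e₁ hl this.1 this.2
      refine ⟨n + 1, 1, by simp [hn]; ring, ?_⟩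
      refine (hh.append hH).trans ?_
      have h2 : Hur ([P 0, Q .inf e₁ 0] ++ ([P 0, Q .zero e₀ 0] ++ DD n))
          ([P 0, Q .inf e₁ 0] ++ ([Q .zero e₀ 0, P (0 + 1)] ++ DD n)) :=
        ((de_ed .zero e₀ 0).right (DD n)).left _
      refine h2.trans ?_
      have h4 : Hur ([P 0] ++ [Q .inf e₁ 0, Q .zero e₀ 0] ++ ([P 1] ++ DD n))
          ([P 0] ++ EE 1 e₀ e₁ ++ ([P 1] ++ DD n)) := by
        have := ee_swap 1 e₀ e₁
        refine Hur.right _ (Hur.left _ ?_)
        simpa [Q_zero] using this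
      have h3 := (ee_central 1 e₀ e₁ [P 0]).symm.right ([P 1] ++ DD n)
      rw [DD_succ]
      have h5 := h4.trans h3
      simpa using h5
    · have : (l.map Item.lab).count .zero = 0 ∧ (l.map Item.lab).count .inf = 0 := by
        rcases hp with ⟨hp, hq⟩ | ⟨hp, hq⟩ <;> simp [hp, hq] at h0 h1 <;>
          constructor <;> simp [h0, h1]
      obtain ⟨n, hn, hH⟩ := norm_none e₀ e₁ hl this.1 this.2
      exact ⟨n, g, by simp [hn], hh.append hH⟩
    all_goals
      exfalso
      simp [hp.1, hp.2] at h0 h1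

end

end Run7.h371
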