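import Mathlib
import Pool.Agent.Run7.h371.Normal

/-!
# Elements of finite order, and coordinates of arbitrary elements
-/

set_option autoImplicit false

namespace Run7.h371

open ModularGroup

theorem a_eq_T : a = T := rfl

theorem S_eq : S = x⁻¹ := by
  apply Subtype.ext
  decide

/-- Every inner automorphism is the automorphism of an edge. -/
theorem exists_V (g : SL2) : ∃ l c, cj g = V l c := by
  have hX : ∀ f : MulAut SL2, (∃ l c, f = V l c) → ∃ l c, X * f = V l c := by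
    rintro f ⟨l, c, rfl⟩
    exact ⟨0 :: l, c, by rw [V_cons, Yp_zero, one_mul]⟩
  have hY : ∀ (e : ZMod 3) (f : MulAut SL2), (∃ l c, f = V l c) → ∃ l c, Yp e * f = V l c := by
    rintro e f ⟨l, c, rfl⟩
    exact ⟨(glue [] e l c).1, (glue [] e l c).2, by rw [V_glue, V_nil]⟩
  have hg : g ∈ Subgroup.closure ({S, T} : Set SL2) := by
    rw [SpecialLinearGroup.SL2Z_generators]; trivial
  have hT : cj T = Yp (-1) * X := by rw [← a_eq_T, cj_a]
  have hTi : cj T⁻¹ = X * Yp 1 := by
    rw [map_inv, hT, mul_inv_rev, X_inv, ← Yp_neg, neg_neg]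
  have hS : cj S = X := by rw [S_eq, cj_xinv]
  have hSi : cj S⁻¹ = X := by rw [map_inv, hS, X_inv]
  induction hg using Subgroup.closure_induction_left with
  | one => exact ⟨[], 0, by rw [V_nil, Yp_zero, map_one]⟩
  | mul_left u hu v _ ih =>
    rcases hu with rfl | rfl
    · rw [map_mul, hS]; exact hX _ ih
    · rw [map_mul, hT, mul_assoc]; exact hY _ _ (hX _ ih)
  | inv_mul_cancel u hu v _ ih =>
    rcases hu with rfl | rfl
    · rw [map_mul, hSi]; exact hX _ ih
    · rw [map_mul, hTi, mul_assoc]; exact hX _ (hY _ _ ih)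

theorem conj_a_zpow (n : ℤ) (g : SL2) :
    (a ^ n * g * (a ^ n)⁻¹).1 = !![g.1 0 0 + n * g.1 1 0,
      g.1 0 1 + n * g.1 1 1 - n * (g.1 0 0 + n * g.1 1 0); g.1 1 0, g.1 1 1 - n * g.1 1 0] := by
  rw [a_eq_T, ← zpow_neg]
  have h1 : (T ^ n * g * T ^ (-n)).1 = (T ^ n).1 * g.1 * (T ^ (-n)).1 := rfl
  have h2 : g.1 = !![g.1 0 0, g.1 0 1; g.1 1 0, g.1 1 1] := Matrix.eta_fin_two g.1
  rw [h1, coe_T_zpow, coe_T_zpow]
  conv_lhs => rw [h2, Matrix.mul_fin_two, Matrix.mul_fin_two]
  ext i j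
  fin_cases i <;> fin_cases j <;> simp <;> ring

theorem conj_x (g : SL2) :
    (x * g * x⁻¹).1 = !![g.1 1 1, -g.1 1 0; -g.1 0 1, g.1 0 0] := by
  have h1 : (x * g * x⁻¹).1 = x.1 * g.1 * (x⁻¹).1 := rfl
  have h2 : (x⁻¹).1 = !![0, -1; 1, 0] := by decide
  have h3 : g.1 = !![g.1 0 0, g.1 0 1; g.1 1 0, g.1 1 1] := Matrix.eta_fin_two g.1
  rw [h1, h2, x_val]
  conv_lhs => rw [h3, Matrix.mul_fin_two, Matrix.mul_fin_two]
  ext i j
  fin_cases i <;> fin_cases j <;> simp

/-- Reduction of elements of small trace. -/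
theorem descent (N : ℕ) : ∀ g : SL2, (g.1 1 0).natAbs = N → |g.1 0 0 + g.1 1 1| ≤ 1 →
    ∃ h, (h * g * h⁻¹).1 0 0 = 0 ∧ ((h * g * h⁻¹).1 1 0 = 1 ∨ (h * g * h⁻¹).1 1 0 = -1) ∧
      (h * g * h⁻¹).1 0 0 + (h * g * h⁻¹).1 1 1 = g.1 0 0 + g.1 1 1 := by
  induction N using Nat.strong_induction_on with
  | _ N ih =>
    intro g hN ht
    have hdet := g.det_coe
    rw [Matrix.det_fin_two] at hdet
    have hr : g.1 1 0 ≠ 0 := by
      intro h0
      rw [h0, mul_zero, sub_zero] at hdet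
      rcases Int.eq_one_or_neg_one_of_mul_eq_one hdet with h | h
      · rw [h, one_mul] at hdet
        rw [h, hdet] at ht
        norm_num at ht
      · rw [h] at hdet
        have : g.1 1 1 = -1 := by linarith
        rw [h, this] at ht
        norm_num at ht
    obtain ⟨n, hn⟩ : ∃ n : ℤ, 2 * |g.1 0 0 + n * g.1 1 0| ≤ |g.1 1 0| := by
      have hm : 0 < |g.1 1 0| := abs_pos.2 hr
      have h1 := Int.emod_nonneg (g.1 0 0 + |g.1 1 0| / 2) hm.ne'
      have h2 := Int.emod_lt_of_pos (g.1 0 0 + |g.1 1 0| / 2) hm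
      have h3 := Int.mul_ediv_add_emod (g.1 0 0 + |g.1 1 0| / 2) |g.1 1 0|
      have key : 2 * |g.1 0 0 - |g.1 1 0| * ((g.1 0 0 + |g.1 1 0| / 2) / |g.1 1 0|)| ≤
          |g.1 1 0| := by
        set m := |g.1 1 0|
        set w := m * ((g.1 0 0 + m / 2) / m)
        rcases abs_cases (g.1 0 0 - w) with ⟨h, _⟩ | ⟨h, _⟩ <;> rw [h] <;> omega
      rcases abs_cases (g.1 1 0) with ⟨h, _⟩ | ⟨h, _⟩
      · refine ⟨-((g.1 0 0 + |g.1 1 0| / 2) / |g.1 1 0|), ?_⟩
        have e : g.1 0 0 + -((g.1 0 0 + |g.1 1 0| / 2) / |g.1 1 0|) * g.1 1 0 =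
            g.1 0 0 - |g.1 1 0| * ((g.1 0 0 + |g.1 1 0| / 2) / |g.1 1 0|) := by
          conv_rhs => rw [h]
          rw [h]; ring
        rw [e]; exact key
      · refine ⟨((g.1 0 0 + |g.1 1 0| / 2) / |g.1 1 0|), ?_⟩
        have e : g.1 0 0 + ((g.1 0 0 + |g.1 1 0| / 2) / |g.1 1 0|) * g.1 1 0 =
            g.1 0 0 - |g.1 1 0| * ((g.1 0 0 + |g.1 1 0| / 2) / |g.1 1 0|) := by
          conv_rhs => rw [h]
          rw [h]; ring
        rw [e]; exact key
    set g' := a ^ n * g * (a ^ n)⁻¹ with hg'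
    have e := conj_a_zpow n g
    rw [← hg'] at e
    have e00 : g'.1 0 0 = g.1 0 0 + n * g.1 1 0 := by rw [e]; simp
    have e10 : g'.1 1 0 = g.1 1 0 := by rw [e]; simp
    have e11 : g'.1 1 1 = g.1 1 1 - n * g.1 1 0 := by rw [e]; simp
    have hdet' := g'.det_coe
    rw [Matrix.det_fin_two] at hdet'
    have htr : g'.1 0 0 + g'.1 1 1 = g.1 0 0 + g.1 1 1 := by rw [e00, e11]; ring
    rw [← e00, ← e10] at hn
    by_cases h2 : 2 ≤ |g.1 1 0|
    · set g'' := x * g' * x⁻¹ with hg''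
      have f := conj_x g'
      rw [← hg''] at f
      have f10 : g''.1 1 0 = -g'.1 0 1 := by rw [f]; simp
      have f00 : g''.1 0 0 = g'.1 1 1 := by rw [f]; simp
      have f11 : g''.1 1 1 = g'.1 0 0 := by rw [f]; simp
      have htr' : g''.1 0 0 + g''.1 1 1 = g.1 0 0 + g.1 1 1 := by rw [f00, f11, ← htr]; ring
      have hlt : (g''.1 1 0).natAbs < N := by
        rw [← hN]
        have : |g''.1 1 0| < |g.1 1 0| := by
          rw [f10, abs_neg, ← e10]
          by_contra hcon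
          push Not at hcon
          have hs : g'.1 1 1 = (g.1 0 0 + g.1 1 1) - g'.1 0 0 := by rw [← htr]; ring
          have hq : g'.1 0 1 * g'.1 1 0 =
              g'.1 0 0 * (g.1 0 0 + g.1 1 1) - g'.1 0 0 ^ 2 - 1 := by
            rw [hs] at hdet'; linarith
          have h3 : |g'.1 0 1| * |g'.1 1 0| ≤ |g'.1 0 0| + |g'.1 0 0| ^ 2 + 1 := by
            rw [← abs_mul, hq]
            have h4 : |g'.1 0 0 * (g.1 0 0 + g.1 1 1)| ≤ |g'.1 0 0| := by
              rw [abs_mul]
              nlinarith [abs_nonneg (g'.1 0 0)]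
            have h5 : g'.1 0 0 ^ 2 = |g'.1 0 0| ^ 2 := (sq_abs _).symm
            rw [h5]
            have h6 := abs_le.1 h4
            rw [abs_le]
            constructor <;> nlinarith [abs_nonneg (g'.1 0 0), sq_nonneg (|g'.1 0 0|)]
          rw [← e10] at h2
          nlinarith [abs_nonneg (g'.1 0 0), abs_nonneg (g'.1 0 1), abs_nonneg (g'.1 1 0)]
        rw [Int.abs_eq_natAbs, Int.abs_eq_natAbs] at this
        exact_mod_cast this
      obtain ⟨h, h3, h4, h5⟩ := ih _ hlt g'' rfl (by rw [htr']; exact ht)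
      refine ⟨h * x * a ^ n, ?_⟩
      have e : h * x * a ^ n * g * (h * x * a ^ n)⁻¹ = h * g'' * h⁻¹ := by
        rw [hg'', hg']; group
      rw [e]
      exact ⟨h3, h4, by rw [h5, htr']⟩
    · have h1 : |g.1 1 0| = 1 := by
        have := abs_pos.2 hr
        omega
      refine ⟨a ^ n, ?_, ?_, ?_⟩
      · rw [← hg']
        rw [e10, h1] at hn
        have : |g'.1 0 0| = 0 := by
          have := abs_nonneg (g'.1 0 0)
          omega
        exact abs_eq_zero.1 this
      · rw [← hg', e10]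
        rcases abs_cases (g.1 1 0) with ⟨h, _⟩ | ⟨h, _⟩
        · left; omega
        · right; omega
      · rw [← hg']; exact htr

/-- Elements of trace between `-1` and `1`. -/
theorem small_trace (g : SL2) (ht : |g.1 0 0 + g.1 1 1| ≤ 1) :
    (∃ (h : SL2) (i : ℕ), g = h * y ^ i * h⁻¹) ∨ (∃ (h : SL2) (e : Bool), g = h * xe e * h⁻¹) := by
  obtain ⟨h, h0, h1, h2⟩ := descent _ g rfl ht
  set k := h * g * h⁻¹ with hk
  have hg : g = h⁻¹ * k * h := by rw [hk]; group
  have hdet := k.det_coe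
  rw [Matrix.det_fin_two, h0, zero_mul, zero_sub] at hdet
  rw [h0, zero_add] at h2
  rw [← h2] at ht
  have hcase : k.1 1 1 = -1 ∨ k.1 1 1 = 0 ∨ k.1 1 1 = 1 := by
    have := abs_le.1 ht
    omega
  have vy2 : (a⁻¹ * y ^ 2 * a).1 = !![0, 1; -1, -1] := by decide
  have vy4 : (y ^ 4).1 = !![0, -1; 1, -1] := by decide
  have vy5 : (a⁻¹ * y ^ 5 * a).1 = !![0, -1; 1, 1] := by decide
  have vx : (x⁻¹).1 = !![0, -1; 1, 0] := by decide
  rcases h1 with h1 | h1
  · rw [h1, mul_one] at hdet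
    have h01 : k.1 0 1 = -1 := by omega
    rcases hcase with h11 | h11 | h11
    · left
      refine ⟨h⁻¹, 4, ?_⟩
      have : k = y ^ 4 := by
        apply Subtype.ext
        rw [vy4]
        ext i j
        fin_cases i <;> fin_cases j <;> simp [h0, h1, h01, h11]
      rw [hg, this]; group
    · right
      refine ⟨h⁻¹, false, ?_⟩
      have : k = x⁻¹ := by
        apply Subtype.ext
        rw [vx]
        ext i j
        fin_cases i <;> fin_cases j <;> simp [h0, h1, h01, h11]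
      rw [hg, this]; simp [xe]
    · left
      refine ⟨h⁻¹ * a⁻¹, 5, ?_⟩
      have : k = a⁻¹ * y ^ 5 * a := by
        apply Subtype.ext
        rw [vy5]
        ext i j
        fin_cases i <;> fin_cases j <;> simp [h0, h1, h01, h11]
      rw [hg, this]; group
  · rw [h1, mul_neg_one, neg_neg] at hdet
    rcases hcase with h11 | h11 | h11
    · left
      refine ⟨h⁻¹ * a⁻¹, 2, ?_⟩
      have : k = a⁻¹ * y ^ 2 * a := by
        apply Subtype.ext
        rw [vy2]
        ext i j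
        fin_cases i <;> fin_cases j <;> simp [h0, h1, hdet, h11]
      rw [hg, this]; group
    · right
      refine ⟨h⁻¹, true, ?_⟩
      have : k = x := by
        apply Subtype.ext
        rw [x_val]
        ext i j
        fin_cases i <;> fin_cases j <;> simp [h0, h1, hdet, h11]
      rw [hg, this]; simp [xe]
    · left
      refine ⟨h⁻¹, 1, ?_⟩
      have : k = y := by
        apply Subtype.ext
        rw [y_val]
        ext i j
        fin_cases i <;> fin_cases j <;> simp [h0, h1, hdet, h11]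
      rw [hg, this]; group

/-- The coefficients of the powers. -/
def sq (t : ℤ) : ℕ → ℤ
  | 0 => 0
  | 1 => 1
  | n + 2 => t * sq t (n + 1) - sq t n

theorem sq_grow (t : ℤ) (ht : 2 ≤ |t|) (n : ℕ) : |sq t n| + 1 ≤ |sq t (n + 1)| := by
  induction n with
  | zero => simp [sq]
  | succ n ih =>
    have h1 : |sq t (n + 2)| ≥ |t| * |sq t (n + 1)| - |sq t n| := by
      have : sq t (n + 2) = t * sq t (n + 1) - sq t n := rfl
      rw [this, ← abs_mul]
      have := abs_sub_abs_le_abs_sub (t * sq t (n + 1)) (sq t n)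
      linarith
    have h2 : |t| * |sq t (n + 1)| ≥ 2 * |sq t (n + 1)| :=
      mul_le_mul_of_nonneg_right ht (abs_nonneg _)
    have : sq t (n + 1 + 1) = sq t (n + 2) := rfl
    rw [this]
    linarith

theorem pow_eq (g : SL2) (n : ℕ) : ∀ i j,
    (g ^ (n + 1)).1 i j = sq (g.1 0 0 + g.1 1 1) (n + 1) * g.1 i j -
      sq (g.1 0 0 + g.1 1 1) n * (1 : Matrix (Fin 2) (Fin 2) ℤ) i j := by
  induction n with
  | zero => intro i j; simp [sq]
  | succ n ih =>
    intro i j
    have h1 : (g ^ (n + 1 + 1)).1 i j =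
        (g ^ (n + 1)).1 i 0 * g.1 0 j + (g ^ (n + 1)).1 i 1 * g.1 1 j := by
      have : (g ^ (n + 1 + 1)).1 = (g ^ (n + 1)).1 * g.1 := by rw [pow_succ]; rfl
      rw [this, Matrix.mul_apply, Fin.sum_univ_two]
    have hdet := g.det_coe
    rw [Matrix.det_fin_two] at hdet
    have h3 : sq (g.1 0 0 + g.1 1 1) (n + 1 + 1) =
        (g.1 0 0 + g.1 1 1) * sq (g.1 0 0 + g.1 1 1) (n + 1) - sq (g.1 0 0 + g.1 1 1) n := rfl
    rw [h1, ih, ih, h3]
    have d1 : g.1 0 0 * g.1 1 1 = 1 + g.1 0 1 * g.1 1 0 := by linarith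
    have o00 : (1 : Matrix (Fin 2) (Fin 2) ℤ) 0 0 = 1 := rfl
    have o01 : (1 : Matrix (Fin 2) (Fin 2) ℤ) 0 1 = 0 := rfl
    have o10 : (1 : Matrix (Fin 2) (Fin 2) ℤ) 1 0 = 0 := rfl
    have o11 : (1 : Matrix (Fin 2) (Fin 2) ℤ) 1 1 = 1 := rfl
    have f2 : ∀ k : Fin 2, k = 0 ∨ k = 1 := by decide
    rcases f2 i with rfl | rfl <;> rcases f2 j with rfl | rfl
    · rw [o00, o01]
      linear_combination sq (g.1 0 0 + g.1 1 1) (n + 1) * (-1 : ℤ) * d1
    · rw [o00, o01]; ring
    · rw [o11, o10]; ring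
    · rw [o11, o10]
      linear_combination sq (g.1 0 0 + g.1 1 1) (n + 1) * (-1 : ℤ) * d1

/-- Classification of the elements of finite order. -/
theorem torsion (g : SL2) (hg : IsOfFinOrder g) :
    (∃ (h : SL2) (i : ℕ), g = h * y ^ i * h⁻¹) ∨ (∃ (h : SL2) (e : Bool), g = h * xe e * h⁻¹) := by
  by_cases ht : |g.1 0 0 + g.1 1 1| ≤ 1
  · exact small_trace g ht
  · left
    push Not at ht
    obtain ⟨n, hn, hpow⟩ := isOfFinOrder_iff_pow_eq_one.1 hg
    obtain ⟨k, rfl⟩ : ∃ k, n = k + 1 := ⟨n - 1, by omega⟩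
    have h1 := pow_eq g k
    rw [hpow] at h1
    have hs : sq (g.1 0 0 + g.1 1 1) (k + 1) ≠ 0 := by
      intro h0
      have := sq_grow (g.1 0 0 + g.1 1 1) (by omega) k
      rw [h0, abs_zero] at this
      have := abs_nonneg (sq (g.1 0 0 + g.1 1 1) k)
      omega
    have h01 : g.1 0 1 = 0 := by
      have := h1 0 1
      simp at this
      rcases this with h | h
      · exact absurd h hs
      · exact h
    have h10 : g.1 1 0 = 0 := by
      have := h1 1 0
      simp at this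
      rcases this with h | h
      · exact absurd h hs
      · exact h
    have hdet := g.det_coe
    rw [Matrix.det_fin_two, h01, zero_mul, sub_zero] at hdet
    rcases Int.eq_one_or_neg_one_of_mul_eq_one hdet with h | h
    · refine ⟨1, 0, ?_⟩
      have : g = 1 := by
        ext i j
        fin_cases i <;> fin_cases j <;> simp [h, h01, h10]
        rw [h, one_mul] at hdet; exact hdet
      rw [this]; simp
    · refine ⟨1, 3, ?_⟩
      have h3 : y ^ 3 = -1 := by decide
      have : g = -1 := by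
        ext i j
        fin_cases i <;> fin_cases j <;> simp [h, h01, h10]
        rw [h] at hdet; linarith
      rw [this, h3]; simp

end Run7.h371
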