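import Mathlib
import Pool.Agent.Run7.h371.Normal

/-!
# Two special entries of vertex type
-/

set_option autoImplicit false

namespace Run7.h371

theorem Eqv.pr_one {G : Type} [Group G] {l m : List (Lab × G)} (h : Eqv l m) :
    pr l = 1 ↔ pr m = 1 := by
  induction h with
  | rel u v h =>
    cases h with
    | exch l m p q => simp [mul_assoc]
    | conj g l =>
      have : pr (List.map (fun p : Lab × G => (p.1, g * p.2 * g⁻¹)) u) = g * pr u * g⁻¹ :=
        pr_cL g u
      rw [this]
      constructor
      · intro h; rw [h]; simp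
      · intro h
        have h2 : g * pr u = g := by
          have := congrArg (· * g) h
          simpa using this
        simpa using h2
  | refl u => exact Iff.rfl
  | symm u v _ ih => exact ih.symm
  | trans u v w _ _ ih1 ih2 => exact ih1.trans ih2

theorem Yp_ypow (c : ZMod 3) (k : ℕ) : Yp c (y ^ k) = y ^ k := by
  have h1 : Y (y ^ k) = y ^ k := by
    rw [Y_apply, mul_inv_eq_iff_eq_mul, ← pow_succ, ← pow_succ']
  have h2 : ∀ n : ℕ, (Y ^ n) (y ^ k) = y ^ k := by
    intro n
    induction n with
    | zero => simp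
    | succ n ih => rw [pow_succ, MulAut.mul_apply, h1, ih]
  exact h2 _

theorem cj_ypow (i : ℕ) : cj (y ^ i) = Yp (i : ZMod 3) := by
  rw [map_pow, Yp_natCast]; rfl

theorem cj_U_ypow (l : List (ZMod 3)) (k : ℕ) :
    cj (U l (y ^ k)) = V l (k : ZMod 3) * (U l)⁻¹ := by
  rw [cj_aut, cj_ypow]; rfl

theorem V_ypow (l : List (ZMod 3)) (c : ZMod 3) (k : ℕ) : V l c (y ^ k) = U l (y ^ k) := by
  unfold V
  rw [MulAut.mul_apply, Yp_ypow]

/-- Shortening the position of the second special entry. -/
theorem shortenU (l : List (ZMod 3)) (h : (0 : ZMod 3) ∈ l.tail) (k : ℕ) :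
    ∃ l' : List (ZMod 3), U l' (y ^ k) = U l (y ^ k) ∧ l'.length < l.length := by
  obtain ⟨l₁, d, l₂, rfl⟩ := Model.exists_zero l h
  refine ⟨(glue l₁ d l₂ 0).1, ?_, ?_⟩
  · rw [← V_ypow _ (glue l₁ d l₂ 0).2, ← V_ypow (l₁ ++ d :: 0 :: l₂) 0, V_glue, V_mid, V_cons,
      Yp_zero, one_mul]
    have : V l₁ d * X * (X * V l₂ 0) = V l₁ d * V l₂ 0 := by
      rw [mul_assoc, ← mul_assoc X, XX, one_mul]
    rw [this]
  · rw [length_glue]; simp

/-- The two kinds of shortening at the last junction. -/
theorem last_junction (i k : ℕ) (l : List (ZMod 3)) (d : ZMod 3) (g : Item)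
    (hg : g.lab = .nod) (hc : Comp g.path g.c (l ++ [d]) (k : ZMod 3))
    (T : List (Lab × SL2)) :
    ∃ (h : Item) (l' : List (ZMod 3)), h.lab = .nod ∧
      h.path.length + l'.length < g.path.length + (l ++ [d]).length ∧
      Eqv ((.zero, y ^ i) :: (T ++ [(md true true).ev g, (.inf, U (l ++ [d]) (y ^ k))]))
        ((.zero, y ^ i) :: (md true true).ev h :: (T ++ [(.inf, U l' (y ^ k))])) := by
  set m := md true true with hm
  obtain ⟨s, u, c⟩ := g
  simp only at hg hc
  subst hg
  -- the rotation
  have rotate : ∀ (h : Item) (β : Lab × SL2), Eqv ((.zero, y ^ i) :: (T ++ [β, m.ev h]))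
      ((.zero, y ^ i) :: m.ev (sh (-(i : ZMod 3)) h) :: (T ++ [β])) := by
    intro h β
    have h1 := Eqv.rot ((.zero, y ^ i) :: (T ++ [β])) (m.ev h)
    have h2 := (Hur.swapR (m.ev h) (.zero, y ^ i) (T ++ [β])).eqv
    have h3 : (((m.ev h).1, ((.zero, y ^ i) : Lab × SL2).2⁻¹ * (m.ev h).2 *
        ((.zero, y ^ i) : Lab × SL2).2) : Lab × SL2) = m.ev (sh (-(i : ZMod 3)) h) := by
      rw [Model.ev_sh, ← Model.cj_inv_eq (cj_ypow i), cj_apply, inv_inv]
      rfl
    rw [h3] at h2
    have h4 := h1.trans h2
    simpa using h4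
  have hDn : m.D .nod = true := rfl
  have hdn : m.δ .nod = -1 := rfl
  rcases hc with ⟨h1, h2⟩ | ⟨μ, hμ⟩ | ⟨μ, hμ⟩
  · -- equal
    subst h1 h2
    obtain ⟨h', hh', hl'⟩ := m.shorten_last .nod l d 0 (Or.inl rfl)
    have hlab : h'.lab = .nod := congrArg Prod.fst hh'
    refine ⟨sh (-(i : ZMod 3)) h', l ++ [d], hlab, ?_, ?_⟩
    · rw [length_sh]
      simp only
      omega
    · refine Eqv.trans ?_ (rotate h' _)
      refine Hur.eqv ?_
      refine Hur.cons _ (Hur.left _ ?_)
      refine (Hur.swapR _ _ _).trans (Hur.of_eq ?_)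
      rw [hh']
      congr 2
      have e1 : ((.inf, U (l ++ [d]) (y ^ k)) : Lab × SL2).2⁻¹ *
          (m.ev ⟨.nod, l ++ [d], (k : ZMod 3)⟩).2 *
          ((.inf, U (l ++ [d]) (y ^ k)) : Lab × SL2).2 =
          cj (U (l ++ [d]) (y ^ k))⁻¹ (m.ev ⟨.nod, l ++ [d], (k : ZMod 3)⟩).2 := by
        rw [cj_apply]; simp
      rw [e1, map_inv, cj_U_ypow]
      unfold Model.ev
      simp only
      rw [← MulAut.mul_apply]
      have : (V (l ++ [d]) (k : ZMod 3) * (U (l ++ [d]))⁻¹)⁻¹ * V (l ++ [d]) (k : ZMod 3) =
          V (l ++ [d]) 0 := by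
        unfold V
        rw [Yp_zero]; group
      rw [this]
  · -- the item comes before
    refine ⟨sh (-(i : ZMod 3)) ⟨.nod, u, c⟩, (glue u (c + m.δ .nod) μ 0).1, rfl, ?_, ?_⟩
    · rw [length_sh, length_glue, hμ]; simp
    · refine Eqv.trans ?_ (rotate ⟨.nod, u, c⟩ _)
      refine Hur.eqv ?_
      refine Hur.cons _ (Hur.left _ ?_)
      refine (Hur.swapL _ _ _).trans (Hur.of_eq ?_)
      congr 1
      simp only [Prod.mk.injEq, true_and]
      have e1 : (m.ev ⟨.nod, u, c⟩).2 * U (l ++ [d]) (y ^ k) * (m.ev ⟨.nod, u, c⟩).2⁻¹ =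
          cj (m.ev ⟨.nod, u, c⟩).2 (U (l ++ [d]) (y ^ k)) := rfl
      rw [e1, m.cj_ev, hμ, ← V_ypow (glue u (c + m.δ .nod) μ 0).1 (glue u (c + m.δ .nod) μ 0).2,
        V_glue, ← V_ypow _ 0, V_mid, ← MulAut.mul_apply]
      congr 1
      simp only
      have : ∀ A B C : MulAut SL2, A * X * B⁻¹ * (B * X * C) = A * (X * X) * C := by
        intro A B C; group
      rw [this, XX, mul_one]
  · -- the item comes after
    subst hμ
    have hcons : l ++ [d] ++ (0 : ZMod 3) :: μ = l ++ d :: 0 :: μ := by simp
    obtain ⟨h', hh', hl'⟩ := m.shorten_mid .nod l μ d c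
    have hlab : h'.lab = .nod := congrArg Prod.fst hh'
    refine ⟨sh (-(i : ZMod 3)) h', l ++ [d], hlab, ?_, ?_⟩
    · rw [length_sh]
      simp only [List.length_append, List.length_cons, List.length_nil] at hl' ⊢
      omega
    · refine Eqv.trans ?_ (rotate h' _)
      refine Hur.eqv ?_
      refine Hur.cons _ (Hur.left _ ?_)
      refine (Hur.swapR _ _ _).trans (Hur.of_eq ?_)
      rw [hh', ← hcons]
      congr 2
      have e1 : ((.inf, U (l ++ [d]) (y ^ k)) : Lab × SL2).2⁻¹ *
          (m.ev ⟨.nod, l ++ [d] ++ (k : ZMod 3) :: μ, c⟩).2 *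
          ((.inf, U (l ++ [d]) (y ^ k)) : Lab × SL2).2 =
          cj (U (l ++ [d]) (y ^ k))⁻¹ (m.ev ⟨.nod, l ++ [d] ++ (k : ZMod 3) :: μ, c⟩).2 := by
        rw [cj_apply]; simp
      rw [e1, map_inv, cj_U_ypow]
      unfold Model.ev
      simp only
      rw [← MulAut.mul_apply, V_mid (l ++ [d]) (k : ZMod 3), V_mid (l ++ [d]) 0]
      have : (V (l ++ [d]) (k : ZMod 3) * (U (l ++ [d]))⁻¹)⁻¹ *
          (V (l ++ [d]) (k : ZMod 3) * X * V μ c) = V (l ++ [d]) 0 * X * V μ c := by
        unfold V
        rw [Yp_zero]; group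
      rw [this]

theorem BL.labs {B l' l : List Item} {m : Model} (hH : Hur (l.map m.ev) ((B ++ l').map m.ev))
    (h : ∀ p ∈ l, p.lab = .nod) : ∀ p ∈ B ++ l', p.lab = .nod := by
  intro p hp
  have h1 := hH.perm
  have h2 : p.lab ∈ ((B ++ l').map m.ev).map Prod.fst := by
    rw [List.map_map]
    exact List.mem_map.2 ⟨p, hp, rfl⟩
  have h3 := h1.mem_iff.2 h2
  rw [List.map_map] at h3
  obtain ⟨q, hq, hq'⟩ := List.mem_map.1 h3
  have : q.lab = p.lab := hq'
  rw [← this]; exact h q hq

/-- The second special entry can be moved to the base vertex. -/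
theorem to_base (i k : ℕ) : ∀ (N : ℕ) (l : List Item) (π : List (ZMod 3)),
    sz l + π.length = N → (∀ p ∈ l, p.lab = .nod) →
    pr ((.zero, y ^ i) :: (l.map (md true true).ev ++ [(.inf, U π (y ^ k))])) = 1 →
    ∃ l' : List Item, (∀ p ∈ l', p.lab = .nod) ∧
      Eqv ((.zero, y ^ i) :: (l.map (md true true).ev ++ [(.inf, U π (y ^ k))]))
        ((.zero, y ^ i) :: (l'.map (md true true).ev ++ [(.inf, y ^ k)])) := by
  intro N
  induction N using Nat.strong_induction_on with
  | _ N ih =>
    intro l π hN hl hpr
    set m := md true true with hm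
    by_cases hk : (k : ZMod 3) = 0
    · -- the central case
      have hfix : U π (y ^ k) = y ^ k := by
        obtain ⟨g, hg⟩ := V_inner π 0
        rw [← V_ypow π 0, hg]
        have hc : cj (y ^ k) = 1 := by rw [cj_ypow, hk, Yp_zero]
        rcases cj_eq_one hc with h | h <;> rw [h] <;> simp [cj_apply]
      rw [hfix]
      exact ⟨l, hl, Eqv.refl _⟩
    · by_cases hz : (0 : ZMod 3) ∈ π.tail
      · obtain ⟨π', h1, h2⟩ := shortenU π hz k
        rw [← h1] at hpr ⊢
        exact ih _ (by omega) l π' rfl hl hpr
      · rcases List.eq_nil_or_concat π with rfl | ⟨u, d, hu⟩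
        · exact ⟨l, hl, by simpa using Eqv.refl _⟩
        · rw [List.concat_eq_append] at hu
          subst hu
          obtain ⟨B, l', hB, hI, hH, hs⟩ := m.reduce l
          have hlab := BL.labs hH hl
          -- the product condition
          have hpr' : cj (pr ((B ++ l').map m.ev)) * (V (u ++ [d]) (k : ZMod 3) * (U (u ++ [d]))⁻¹) =
              Yp (-(i : ZMod 3)) := by
            rw [← hH.pr_eq, ← cj_U_ypow, ← map_mul, Yp_neg, eq_inv_iff_mul_eq_one]
            have h1 : y ^ i * (pr (l.map m.ev) * U (u ++ [d]) (y ^ k)) = 1 := by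
              simpa using hpr
            have h2 : (pr (l.map m.ev) * U (u ++ [d]) (y ^ k)) * y ^ i = 1 := by
              rwa [mul_eq_one_iff_eq_inv, ← inv_eq_iff_eq_inv, eq_comm,
                ← mul_eq_one_iff_eq_inv] at h1
            rw [← cj_ypow, ← map_mul, h2, map_one]
          obtain ⟨f, hf⟩ := hB.rot
          have hU : (U (u ++ [d]))⁻¹ = X * (V u d)⁻¹ := by
            have : U (u ++ [d]) = V u d * X := by simp [U_append, V, mul_assoc]
            rw [this, mul_inv_rev, X_inv]
          have hkr : NZ (u ++ [d] ++ [(k : ZMod 3)]).tail := by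
            rw [List.tail_append_of_ne_nil (by simp)]
            intro e he h0
            rcases List.mem_append.1 he with he | he
            · exact hz (h0 ▸ he)
            · exact hk (by rw [← List.mem_singleton.1 he, h0])
          have hNu : NotX ((V u d)⁻¹) := lem3 u d (fun e he h0 => hz (h0 ▸ he))
          rw [List.map_append, pr_append, map_mul, hf, hU, mul_assoc] at hpr'
          have hpr2 : cj (pr (l'.map m.ev)) * (V (u ++ [d]) (k : ZMod 3) * X * (V u d)⁻¹) =
              Yp (-f + -(i : ZMod 3)) := by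
            rw [Yp_add, ← hpr', Yp_neg]; group
          cases l' with
          | nil =>
            exfalso
            simp only [List.map_nil, pr_nil, map_one, one_mul] at hpr2
            exact lem5 _ _ hkr hNu _ hpr2
          | cons p l'' =>
            by_cases hcomp : Comp ((p :: l'').getLast (by simp)).path
                ((p :: l'').getLast (by simp)).c (u ++ [d]) (k : ZMod 3)
            · -- shortening
              set g := (p :: l'').getLast (by simp) with hgdef
              have hsplit : p :: l'' = (p :: l'').dropLast ++ [g] :=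
                (List.dropLast_append_getLast (by simp)).symm
              have hgl : g.lab = .nod := hlab g (by
                rw [hsplit]; simp)
              obtain ⟨h, π', h1, h2, h3⟩ := last_junction i k u d g hgl hcomp
                ((B ++ (p :: l'').dropLast).map m.ev)
              have e1 : Eqv ((.zero, y ^ i) :: (l.map m.ev ++ [(.inf, U (u ++ [d]) (y ^ k))]))
                  ((.zero, y ^ i) :: ((B ++ (p :: l'').dropLast).map m.ev ++
                    [m.ev g, (.inf, U (u ++ [d]) (y ^ k))])) := by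
                refine Hur.eqv ?_
                refine Hur.cons _ ?_
                have := hH.right [(.inf, U (u ++ [d]) (y ^ k))]
                rw [hsplit] at this
                simpa using this
              have e2 := e1.trans h3
              have hpr3 := (Eqv.pr_one e2).1 hpr
              have hsz : sz (h :: (B ++ (p :: l'').dropLast)) + π'.length < N := by
                rw [hsplit] at hs
                simp only [sz_cons, sz_append, sz_nil] at hs ⊢
                omega
              have hlabs : ∀ q ∈ h :: (B ++ (p :: l'').dropLast), q.lab = .nod := by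
                intro q hq
                rcases List.mem_cons.1 hq with rfl | hq
                · exact h1
                · apply hlab
                  rw [hsplit]
                  rcases List.mem_append.1 hq with hq | hq
                  · simp [hq]
                  · simp [hq]
              obtain ⟨l₃, h4, h5⟩ := ih _ hsz (h :: (B ++ (p :: l'').dropLast)) π' rfl hlabs
                (by simpa using hpr3)
              refine ⟨l₃, h4, e2.trans ?_⟩
              simpa using h5
            · exfalso
              have hE := lem4 ((p :: l'').getLast (by simp)).path (u ++ [d])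
                ((p :: l'').getLast (by simp)).c (k : ZMod 3)
                (hI.2 _ (List.getLast_mem (by simp))).1 hkr hcomp hNu
              obtain ⟨n, hn, hp⟩ := Model.Irr.cj_pr m l'' p hI hE
              rw [hpr2] at hp
              exact lem5 _ _ (hI.2 p (by simp)).2 hn _ hp.symm

end Run7.h371
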