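import Mathlib
import Pool.Agent.Run7.h371.Vertex
import Pool.Agent.Run7.h371.Torsion

/-!
# Uniqueness of tuples with two special entries of finite order
-/

set_option autoImplicit false

namespace Run7.h371

/-- The labelled tuple attached to two special entries and a list of ordinary ones. -/
def tup (A : SL2) (t : List SL2) (B : SL2) : List (Lab × SL2) :=
  (.zero, A) :: (t.map (fun g => (Lab.nod, g)) ++ [(.inf, B)])

theorem pr_tup (A : SL2) (t : List SL2) (B : SL2) : pr (tup A t B) = A * t.prod * B := by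
  unfold tup
  have : pr (t.map (fun g => ((Lab.nod, g) : Lab × SL2))) = t.prod := by
    unfold pr
    rw [List.map_map]
    congr 1
    conv_rhs => rw [← List.map_id t]
    rfl
  simp [this, mul_assoc]

theorem cL_tup (g A : SL2) (t : List SL2) (B : SL2) :
    cL g (tup A t B) = tup (g * A * g⁻¹) (t.map fun h => g * h * g⁻¹) (g * B * g⁻¹) := by
  unfold tup
  simp only [cL_cons, cL_append, cL_nil]
  congr 2
  unfold cL
  rw [List.map_map, List.map_map]; rfl

/-- A conjugate of the model element of a label has coordinates. -/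
theorem item_of (m : Model) (s : Lab) (h : SL2) : ∃ p : Item, m.ev p = (s, h * m.M s * h⁻¹) := by
  obtain ⟨l, c, hlc⟩ := exists_V h
  refine ⟨⟨s, l, c⟩, ?_⟩
  unfold Model.ev
  simp only
  rw [← hlc]; rfl

theorem items_of (m : Model) (L : List (Lab × SL2))
    (h : ∀ p ∈ L, ∃ g, p.2 = g * m.M p.1 * g⁻¹) : ∃ l : List Item, l.map m.ev = L := by
  induction L with
  | nil => exact ⟨[], rfl⟩
  | cons p L ih =>
    obtain ⟨l, hl⟩ := ih (fun q hq => h q (List.mem_cons_of_mem _ hq))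
    obtain ⟨g, hg⟩ := h p (by simp)
    obtain ⟨q, hq⟩ := item_of m p.1 g
    refine ⟨q :: l, ?_⟩
    rw [List.map_cons, hq, hl, ← hg]

theorem labs_map (m : Model) (l : List Item) :
    (l.map m.ev).map Prod.fst = l.map Item.lab := by
  rw [List.map_map]; rfl

theorem nod_items (t : List SL2) (ht : ∀ g ∈ t, ∃ h : SL2, g = h * a * h⁻¹) (e₀ e₁ : Bool) :
    ∃ l : List Item, l.map (md e₀ e₁).ev = t.map (fun g => (Lab.nod, g)) := by
  apply items_of
  intro p hp
  obtain ⟨g, hg, rfl⟩ := List.mem_map.1 hp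
  exact ht g hg

theorem count_of {e₀ e₁ : Bool} {l B : List Item}
    (h : Hur (l.map (md e₀ e₁).ev) (B.map (md e₀ e₁).ev)) (s : Lab) :
    (B.map Item.lab).count s = ((l.map (md e₀ e₁).ev).map Prod.fst).count s := by
  rw [← labs_map (md e₀ e₁) B]
  exact (h.perm.count_eq s).symm

theorem nod_count (t : List SL2) (s : Lab) (hs : s ≠ .nod) :
    ((t.map (fun g => ((Lab.nod, g) : Lab × SL2))).map Prod.fst).count s = 0 := by
  rw [List.map_map, List.count_eq_zero]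
  intro h
  obtain ⟨g, _, hg⟩ := List.mem_map.1 h
  exact hs hg.symm

/-- Lists of ordinary entries whose product rotates about the base. -/
theorem ordinary (t : List SL2) (ht : ∀ g ∈ t, ∃ h : SL2, g = h * a * h⁻¹) {e : ZMod 3}
    (h : cj t.prod = Yp e) :
    ∃ n, t.length = 2 * n ∧ Hur (t.map (fun g => (Lab.nod, g))) (DD n) := by
  obtain ⟨l, hl⟩ := nod_items t ht true true
  have hp : pr (t.map (fun g => ((Lab.nod, g) : Lab × SL2))) = t.prod := by
    unfold pr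
    rw [List.map_map]
    congr 1
    conv_rhs => rw [← List.map_id t]
    rfl
  rw [← hp, ← hl] at h
  obtain ⟨B, hB, hH, -⟩ := (md true true).all_blocks l h
  have h0 : (B.map Item.lab).count .zero = 0 := by
    rw [count_of hH, hl]; exact nod_count t _ (by decide)
  have h1 : (B.map Item.lab).count .inf = 0 := by
    rw [count_of hH, hl]; exact nod_count t _ (by decide)
  obtain ⟨n, hn, hD⟩ := norm_none true true hB h0 h1
  refine ⟨n, ?_, ?_⟩
  · have := (hH.length_eq)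
    rw [hl] at this
    simp at this
    omega
  · rw [← hl]; exact hH.trans hD

/-- Normal form: both special entries of vertex type. -/
def NVV (i k n : ℕ) : List (Lab × SL2) := (.zero, y ^ i) :: (DD n ++ [(.inf, y ^ k)])

theorem Eqv.length_eq {G : Type} [Group G] {l m : List (Lab × G)} (h : Eqv l m) :
    l.length = m.length := by
  have := h.perm.length_eq
  simpa using this

theorem norm_vv (g h : SL2) (i k : ℕ) (t : List SL2)
    (ht : ∀ g ∈ t, ∃ h : SL2, g = h * a * h⁻¹)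
    (h1 : (g * y ^ i * g⁻¹) * t.prod * (h * y ^ k * h⁻¹) = 1) :
    ∃ n, t.length = 2 * n ∧ Eqv (tup (g * y ^ i * g⁻¹) t (h * y ^ k * h⁻¹)) (NVV i k n) := by
  have e0 := Eqv.conj g⁻¹ (tup (g * y ^ i * g⁻¹) t (h * y ^ k * h⁻¹))
  rw [cL_tup] at e0
  have c1 : g⁻¹ * (g * y ^ i * g⁻¹) * g⁻¹⁻¹ = y ^ i := by group
  obtain ⟨π, c, hπ⟩ := exists_V (g⁻¹ * h)
  have c2 : g⁻¹ * (h * y ^ k * h⁻¹) * g⁻¹⁻¹ = U π (y ^ k) := by
    rw [← V_ypow π c, ← hπ, cj_apply]; group
  rw [c1, c2] at e0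
  have ht' : ∀ u ∈ t.map (fun h => g⁻¹ * h * g⁻¹⁻¹), ∃ h : SL2, u = h * a * h⁻¹ := by
    intro u hu
    obtain ⟨v, hv, rfl⟩ := List.mem_map.1 hu
    obtain ⟨w, rfl⟩ := ht v hv
    exact ⟨g⁻¹ * w, by group⟩
  obtain ⟨l, hl⟩ := nod_items _ ht' true true
  have hlab : ∀ p ∈ l, p.lab = .nod := by
    intro p hp
    have : p.lab ∈ (l.map (md true true).ev).map Prod.fst := by
      rw [labs_map]; exact List.mem_map.2 ⟨p, hp, rfl⟩
    rw [hl, List.map_map] at this
    obtain ⟨_, _, h⟩ := List.mem_map.1 this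
    exact h.symm
  have hpr : pr (tup (y ^ i) (t.map fun h => g⁻¹ * h * g⁻¹⁻¹) (U π (y ^ k))) = 1 := by
    rw [← Eqv.pr_one e0, pr_tup, h1]
  unfold tup at e0 hpr
  rw [← hl] at e0 hpr
  obtain ⟨l', hlab', hE⟩ := to_base i k _ l π rfl hlab hpr
  have hpr2 := (Eqv.pr_one hE).1 hpr
  have hcj : cj (pr (l'.map (md true true).ev)) = Yp (-(i : ZMod 3) + -(k : ZMod 3)) := by
    have h3 : y ^ i * (pr (l'.map (md true true).ev) * y ^ k) = 1 := by simpa using hpr2
    have h4 : pr (l'.map (md true true).ev) = (y ^ i)⁻¹ * (y ^ k)⁻¹ := by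
      rw [eq_mul_inv_iff_mul_eq, eq_inv_iff_mul_eq_one]
      rwa [mul_eq_one_iff_eq_inv, ← inv_eq_iff_eq_inv, eq_comm, ← mul_eq_one_iff_eq_inv] at h3
    rw [h4, map_mul, map_inv, map_inv, cj_ypow, cj_ypow, Yp_add, Yp_neg, Yp_neg]
  obtain ⟨B, hB, hH, -⟩ := (md true true).all_blocks l' hcj
  have hcnt : ∀ s, s ≠ Lab.nod → (B.map Item.lab).count s = 0 := by
    intro s hs
    rw [count_of hH, labs_map, List.count_eq_zero]
    intro hmem
    obtain ⟨q, hq, hq'⟩ := List.mem_map.1 hmem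
    exact hs (by rw [← hq', hlab' q hq])
  obtain ⟨n, hn, hD⟩ := norm_none true true hB (hcnt _ (by decide)) (hcnt _ (by decide))
  have hfin : Eqv (tup (g * y ^ i * g⁻¹) t (h * y ^ k * h⁻¹)) (NVV i k n) := by
    refine (e0.trans hE).trans (Hur.eqv ?_)
    unfold NVV
    exact Hur.cons _ (Hur.right _ (hH.trans hD))
  refine ⟨n, ?_, hfin⟩
  have := hfin.length_eq
  simp [tup, NVV, length_DD] at this
  omega

/-- Normal form: the first special entry of vertex type, the second one of edge type. -/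
def NVE (i : ℕ) (e : Bool) (n : ℕ) : List (Lab × SL2) :=
  (.zero, y ^ i) :: ([P 0, Q .inf e 0] ++ DD n)

theorem norm_ve (g h : SL2) (i : ℕ) (e : Bool) (t : List SL2)
    (ht : ∀ g ∈ t, ∃ h : SL2, g = h * a * h⁻¹)
    (h1 : (g * y ^ i * g⁻¹) * t.prod * (h * xe e * h⁻¹) = 1) :
    ∃ n, t.length = 2 * n + 1 ∧
      Eqv (tup (g * y ^ i * g⁻¹) t (h * xe e * h⁻¹)) (NVE i e n) := by
  have e0 := Eqv.conj g⁻¹ (tup (g * y ^ i * g⁻¹) t (h * xe e * h⁻¹))
  have hpr0 : pr (cL g⁻¹ (tup (g * y ^ i * g⁻¹) t (h * xe e * h⁻¹))) = 1 := by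
    rw [← Eqv.pr_one e0, pr_tup, h1]
  rw [cL_tup] at e0 hpr0
  have c1 : g⁻¹ * (g * y ^ i * g⁻¹) * g⁻¹⁻¹ = y ^ i := by group
  have c2 : g⁻¹ * (h * xe e * h⁻¹) * g⁻¹⁻¹ = (g⁻¹ * h) * xe e * (g⁻¹ * h)⁻¹ := by group
  rw [c1, c2] at e0 hpr0
  have ht' : ∀ u ∈ t.map (fun h => g⁻¹ * h * g⁻¹⁻¹), ∃ h : SL2, u = h * a * h⁻¹ := by
    intro u hu
    obtain ⟨v, hv, rfl⟩ := List.mem_map.1 hu
    obtain ⟨w, rfl⟩ := ht v hv
    exact ⟨g⁻¹ * w, by group⟩
  obtain ⟨l, hl⟩ := items_of (md true e)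
    ((t.map (fun h => g⁻¹ * h * g⁻¹⁻¹)).map (fun g => ((Lab.nod, g) : Lab × SL2)) ++
      [(.inf, (g⁻¹ * h) * xe e * (g⁻¹ * h)⁻¹)]) (by
    intro p hp
    rcases List.mem_append.1 hp with hp | hp
    · obtain ⟨u, hu, rfl⟩ := List.mem_map.1 hp
      exact ht' u hu
    · rw [List.mem_singleton] at hp
      subst hp
      exact ⟨g⁻¹ * h, rfl⟩)
  unfold tup at e0 hpr0
  rw [← hl] at e0 hpr0
  have hcj : cj (pr (l.map (md true e).ev)) = Yp (-(i : ZMod 3)) := by
    have h3 : y ^ i * pr (l.map (md true e).ev) = 1 := by simpa using hpr0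
    have h4 : pr (l.map (md true e).ev) = (y ^ i)⁻¹ := (inv_eq_of_mul_eq_one_right h3).symm
    rw [h4, map_inv, cj_ypow, Yp_neg]
  obtain ⟨B, hB, hH, -⟩ := (md true e).all_blocks l hcj
  have h0 : (B.map Item.lab).count .zero = 0 := by
    rw [count_of hH, hl, List.map_append, List.count_append, nod_count _ _ (by decide)]
    rfl
  have h1 : (B.map Item.lab).count .inf = 1 := by
    rw [count_of hH, hl, List.map_append, List.count_append, nod_count _ _ (by decide)]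
    rfl
  obtain ⟨n, hn, hD⟩ := norm_inf true e hB h0 h1
  have hfin : Eqv (tup (g * y ^ i * g⁻¹) t (h * xe e * h⁻¹)) (NVE i e n) := by
    refine e0.trans (Hur.eqv ?_)
    exact Hur.cons _ (hH.trans hD)
  refine ⟨n, ?_, hfin⟩
  have := hfin.length_eq
  simp [tup, NVE, length_DD] at this
  omega

/-- Normal form: the first special entry of edge type, the second one of vertex type. -/
def NEV (e : Bool) (k : ℕ) (n : ℕ) : List (Lab × SL2) :=
  [P 0, Q .zero e 0] ++ DD n ++ [(.inf, y ^ k)]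

theorem norm_ev (g h : SL2) (e : Bool) (k : ℕ) (t : List SL2)
    (ht : ∀ g ∈ t, ∃ h : SL2, g = h * a * h⁻¹)
    (h1 : (g * xe e * g⁻¹) * t.prod * (h * y ^ k * h⁻¹) = 1) :
    ∃ n, t.length = 2 * n + 1 ∧
      Eqv (tup (g * xe e * g⁻¹) t (h * y ^ k * h⁻¹)) (NEV e k n) := by
  have e0 := Eqv.conj h⁻¹ (tup (g * xe e * g⁻¹) t (h * y ^ k * h⁻¹))
  have hpr0 : pr (cL h⁻¹ (tup (g * xe e * g⁻¹) t (h * y ^ k * h⁻¹))) = 1 := by
    rw [← Eqv.pr_one e0, pr_tup, h1]
  rw [cL_tup] at e0 hpr0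
  have c1 : h⁻¹ * (h * y ^ k * h⁻¹) * h⁻¹⁻¹ = y ^ k := by group
  have c2 : h⁻¹ * (g * xe e * g⁻¹) * h⁻¹⁻¹ = (h⁻¹ * g) * xe e * (h⁻¹ * g)⁻¹ := by group
  rw [c1, c2] at e0 hpr0
  have ht' : ∀ u ∈ t.map (fun g => h⁻¹ * g * h⁻¹⁻¹), ∃ h : SL2, u = h * a * h⁻¹ := by
    intro u hu
    obtain ⟨v, hv, rfl⟩ := List.mem_map.1 hu
    obtain ⟨w, rfl⟩ := ht v hv
    exact ⟨h⁻¹ * w, by group⟩
  obtain ⟨l, hl⟩ := items_of (md e true)
    ((.zero, (h⁻¹ * g) * xe e * (h⁻¹ * g)⁻¹) ::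
      (t.map (fun g => h⁻¹ * g * h⁻¹⁻¹)).map (fun g => ((Lab.nod, g) : Lab × SL2))) (by
    intro p hp
    rcases List.mem_cons.1 hp with hp | hp
    · subst hp
      exact ⟨h⁻¹ * g, rfl⟩
    · obtain ⟨u, hu, rfl⟩ := List.mem_map.1 hp
      exact ht' u hu)
  have htup : tup ((h⁻¹ * g) * xe e * (h⁻¹ * g)⁻¹) (t.map (fun g => h⁻¹ * g * h⁻¹⁻¹)) (y ^ k) =
      l.map (md e true).ev ++ [(.inf, y ^ k)] := by
    rw [hl]; rfl
  rw [htup] at e0 hpr0
  have hcj : cj (pr (l.map (md e true).ev)) = Yp (-(k : ZMod 3)) := by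
    have h3 : pr (l.map (md e true).ev) * y ^ k = 1 := by simpa using hpr0
    have h4 : pr (l.map (md e true).ev) = (y ^ k)⁻¹ := eq_inv_of_mul_eq_one_left h3
    rw [h4, map_inv, cj_ypow, Yp_neg]
  obtain ⟨B, hB, hH, -⟩ := (md e true).all_blocks l hcj
  have h0 : (B.map Item.lab).count .zero = 1 := by
    rw [count_of hH, hl, List.map_cons, List.count_cons, nod_count _ _ (by decide)]
    rfl
  have h1 : (B.map Item.lab).count .inf = 0 := by
    rw [count_of hH, hl, List.map_cons, List.count_cons, nod_count _ _ (by decide)]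
    rfl
  obtain ⟨n, hn, hD⟩ := norm_zero e true hB h0 h1
  have hfin : Eqv (tup (g * xe e * g⁻¹) t (h * y ^ k * h⁻¹)) (NEV e k n) := by
    refine e0.trans (Hur.eqv ?_)
    exact Hur.right _ (hH.trans hD)
  refine ⟨n, ?_, hfin⟩
  have := hfin.length_eq
  simp [tup, NEV, length_DD] at this
  omega

/-- Normal form: both special entries of edge type. -/
def NEE (e₀ e₁ : Bool) (n : ℕ) : List (Lab × SL2) := EE 1 e₀ e₁ ++ DD n

theorem DD_mem (n : ℕ) : ∀ p ∈ DD n, p.1 = .nod ∧ ∃ h : SL2, p.2 = h * a * h⁻¹ := by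
  induction n with
  | zero => intro p hp; simp [DD] at hp
  | succ n ih =>
    intro p hp
    simp only [DD, List.mem_cons] at hp
    rcases hp with rfl | rfl | hp
    · exact ⟨rfl, 1, by simp⟩
    · refine ⟨rfl, x, ?_⟩
      decide
    · exact ih p hp

theorem norm_ee (g h : SL2) (e₀ e₁ : Bool) (t : List SL2)
    (ht : ∀ g ∈ t, ∃ h : SL2, g = h * a * h⁻¹)
    (h1 : (g * xe e₀ * g⁻¹) * t.prod * (h * xe e₁ * h⁻¹) = 1) :
    ∃ n, t.length = 2 * n ∧
      Eqv (tup (g * xe e₀ * g⁻¹) t (h * xe e₁ * h⁻¹)) (NEE e₀ e₁ n) := by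
  obtain ⟨l, hl⟩ := items_of (md e₀ e₁) (tup (g * xe e₀ * g⁻¹) t (h * xe e₁ * h⁻¹)) (by
    intro p hp
    rcases List.mem_cons.1 hp with hp | hp
    · subst hp
      exact ⟨g, rfl⟩
    · rcases List.mem_append.1 hp with hp | hp
      · obtain ⟨u, hu, rfl⟩ := List.mem_map.1 hp
        exact ht u hu
      · rw [List.mem_singleton] at hp
        subst hp
        exact ⟨h, rfl⟩)
  have hpr : pr (l.map (md e₀ e₁).ev) = 1 := by rw [hl, pr_tup, h1]
  obtain ⟨B, hB, hH, -⟩ := (md e₀ e₁).all_blocks l (e := 0) (by rw [hpr, map_one, Yp_zero])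
  have h0 : (B.map Item.lab).count .zero = 1 := by
    rw [count_of hH, hl, tup, List.map_cons, List.map_append, List.count_cons, List.count_append,
      nod_count _ _ (by decide)]
    rfl
  have h1' : (B.map Item.lab).count .inf = 1 := by
    rw [count_of hH, hl, tup, List.map_cons, List.map_append, List.count_cons, List.count_append,
      nod_count _ _ (by decide)]
    rfl
  obtain ⟨n, w, hn, hD⟩ := norm_both e₀ e₁ hB h0 h1'
  have e1 : Eqv (tup (g * xe e₀ * g⁻¹) t (h * xe e₁ * h⁻¹)) (EE w e₀ e₁ ++ DD n) := by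
    rw [← hl]; exact (hH.trans hD).eqv
  have e2 := e1.trans (Eqv.conj w⁻¹ _)
  have c1 : cL w⁻¹ (EE w e₀ e₁ ++ DD n) = EE 1 e₀ e₁ ++ cL w⁻¹ (DD n) := by
    rw [cL_append]
    congr 1
    simp only [EE, cL_cons, cL_nil]
    have r0 : w⁻¹ * (w * xe e₀ * w⁻¹) * w⁻¹⁻¹ = 1 * xe e₀ * 1⁻¹ := by group
    have r1 : w⁻¹ * (w * xe e₁ * w⁻¹) * w⁻¹⁻¹ = 1 * xe e₁ * 1⁻¹ := by group
    rw [r0, r1]
  rw [c1] at e2
  -- the ordinary entries
  obtain ⟨u, hu, hut⟩ : ∃ u : List SL2, u.map (fun g => ((Lab.nod, g) : Lab × SL2)) =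
      cL w⁻¹ (DD n) ∧ ∀ v ∈ u, ∃ h : SL2, v = h * a * h⁻¹ := by
    refine ⟨(cL w⁻¹ (DD n)).map Prod.snd, ?_, ?_⟩
    · rw [List.map_map]
      conv_rhs => rw [← List.map_id (cL w⁻¹ (DD n))]
      apply List.map_congr_left
      intro p hp
      obtain ⟨q, hq, rfl⟩ := List.mem_map.1 hp
      have := (DD_mem n q hq).1
      simp [this]
    · intro v hv
      obtain ⟨p, hp, rfl⟩ := List.mem_map.1 hv
      obtain ⟨q, hq, rfl⟩ := List.mem_map.1 hp
      obtain ⟨r, hr⟩ := (DD_mem n q hq).2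
      exact ⟨w⁻¹ * r, by simp only [hr]; group⟩
  have hup : u.prod = pr (cL w⁻¹ (DD n)) := by
    rw [← hu]
    unfold pr
    rw [List.map_map]
    congr 1
    conv_lhs => rw [← List.map_id u]
    rfl
  have hpr2 : pr (EE 1 e₀ e₁ ++ cL w⁻¹ (DD n)) = 1 := by
    rw [← Eqv.pr_one e2, pr_tup, h1]
  have hcj : cj u.prod = Yp 0 := by
    rw [pr_append] at hpr2
    have h3 : pr (EE 1 e₀ e₁) = 1 ∨ pr (EE 1 e₀ e₁) = -1 := by
      cases e₀ <;> cases e₁ <;> decide
    rw [hup, Yp_zero]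
    rcases h3 with h3 | h3
    · rw [h3, one_mul] at hpr2
      rw [hpr2, map_one]
    · rw [h3] at hpr2
      have : pr (cL w⁻¹ (DD n)) = -1 := by
        have h4 : -(pr (cL w⁻¹ (DD n))) = 1 := by simpa using hpr2
        rw [← h4, neg_neg]
      rw [this, cj_neg_one]
  obtain ⟨n', hn', hH'⟩ := ordinary u hut hcj
  rw [hu] at hH'
  have hlen := hH'.length_eq
  simp only [length_cL, length_DD] at hlen
  have : n' = n := by omega
  subst this
  have hfin : Eqv (tup (g * xe e₀ * g⁻¹) t (h * xe e₁ * h⁻¹)) (NEE e₀ e₁ n') :=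
    e2.trans (hH'.left _).eqv
  refine ⟨n', ?_, hfin⟩
  have := hfin.length_eq
  simp [tup, NEE, EE, length_DD] at this
  omega

/-- The classification of tuples with two special entries of finite order. -/
theorem unique {A B A' B' : SL2} {t t' : List SL2} (hA : IsOfFinOrder A) (hB : IsOfFinOrder B)
    (hAA : IsConj A A') (hBB : IsConj B B')
    (ht : ∀ g ∈ t, ∃ h : SL2, g = h * a * h⁻¹) (ht' : ∀ g ∈ t', ∃ h : SL2, g = h * a * h⁻¹)
    (hl : t.length = t'.length) (h1 : A * t.prod * B = 1) (h1' : A' * t'.prod * B' = 1) :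
    Eqv (tup A t B) (tup A' t' B') := by
  obtain ⟨u, hu⟩ := isConj_iff.1 hAA
  obtain ⟨v, hv⟩ := isConj_iff.1 hBB
  rcases torsion A hA with ⟨g, i, rfl⟩ | ⟨g, e, rfl⟩ <;>
    rcases torsion B hB with ⟨h, k, rfl⟩ | ⟨h, f, rfl⟩
  · have hA' : A' = (u * g) * y ^ i * (u * g)⁻¹ := by rw [← hu]; group
    have hB' : B' = (v * h) * y ^ k * (v * h)⁻¹ := by rw [← hv]; group
    subst hA' hB'
    obtain ⟨n, hn, hE⟩ := norm_vv g h i k t ht h1
    obtain ⟨n', hn', hE'⟩ := norm_vv (u * g) (v * h) i k t' ht' h1'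
    have : n = n' := by omega
    subst this
    exact hE.trans hE'.symm
  · have hA' : A' = (u * g) * y ^ i * (u * g)⁻¹ := by rw [← hu]; group
    have hB' : B' = (v * h) * xe f * (v * h)⁻¹ := by rw [← hv]; group
    subst hA' hB'
    obtain ⟨n, hn, hE⟩ := norm_ve g h i f t ht h1
    obtain ⟨n', hn', hE'⟩ := norm_ve (u * g) (v * h) i f t' ht' h1'
    have : n = n' := by omega
    subst this
    exact hE.trans hE'.symm
  · have hA' : A' = (u * g) * xe e * (u * g)⁻¹ := by rw [← hu]; group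
    have hB' : B' = (v * h) * y ^ k * (v * h)⁻¹ := by rw [← hv]; group
    subst hA' hB'
    obtain ⟨n, hn, hE⟩ := norm_ev g h e k t ht h1
    obtain ⟨n', hn', hE'⟩ := norm_ev (u * g) (v * h) e k t' ht' h1'
    have : n = n' := by omega
    subst this
    exact hE.trans hE'.symm
  · have hA' : A' = (u * g) * xe e * (u * g)⁻¹ := by rw [← hu]; group
    have hB' : B' = (v * h) * xe f * (v * h)⁻¹ := by rw [← hv]; group
    subst hA' hB'
    obtain ⟨n, hn, hE⟩ := norm_ee g h e f t ht h1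
    obtain ⟨n', hn', hE'⟩ := norm_ee (u * g) (v * h) e f t' ht' h1'
    have : n = n' := by omega
    subst this
    exact hE.trans hE'.symm

end Run7.h371
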