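import Mathlib
import Pool.Agent.Run7.h371.Moves

/-!
# Monodromy data with two special entries of finite order
-/

set_option autoImplicit false

namespace Run7.h371

/-- The monodromy datum of an elliptic fibration over the sphere with two special fibres of
finite monodromy and any number of nodal fibres: two elements `A`, `B` of finite order of
`SL(2, ℤ)` and a list `t` of right-handed Dehn twists (conjugates of `1 1; 0 1`) such that
`A * t₁ * ⋯ * tₘ * B = 1`. -/
structure Datum where
  A : Matrix.SpecialLinearGroup (Fin 2) ℤ
  B : Matrix.SpecialLinearGroup (Fin 2) ℤ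
  t : List (Matrix.SpecialLinearGroup (Fin 2) ℤ)
  finite_A : IsOfFinOrder A
  finite_B : IsOfFinOrder B
  twist : ∀ g ∈ t, IsConj ModularGroup.T g
  closed : A * t.prod * B = 1

/-- The labelled tuple `(zero, A), (nod, t₁), …, (nod, tₘ), (inf, B)`. -/
def Datum.tuple (D : Datum) : List (Lab × Matrix.SpecialLinearGroup (Fin 2) ℤ) :=
  (Lab.zero, D.A) :: (D.t.map (fun g => (Lab.nod, g)) ++ [(Lab.inf, D.B)])

end Run7.h371
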