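import Mathlib
import Pool.Agent.Run7.h371.Main
import Pool.Agent.Run7.h371.Datum

/-!
# The invariants of a datum, and the classification
-/

set_option autoImplicit false

namespace Run7.h371

/-- The conjugacy classes of the entries with a given label are invariant. -/
theorem class_inv {G : Type} [Group G] {l m : List (Lab × G)} (h : Eqv l m) (s : Lab) (g : G) :
    (∃ p ∈ l, p.1 = s ∧ IsConj g p.2) ↔ (∃ p ∈ m, p.1 = s ∧ IsConj g p.2) := by
  induction h with
  | rel u v h =>
    cases h with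
    | exch l m p q =>
      have hc : IsConj q.2 (p.2 * q.2 * p.2⁻¹) := isConj_iff.2 ⟨p.2, rfl⟩
      simp only [List.mem_append, List.mem_cons]
      constructor
      · rintro ⟨r, hr | rfl | rfl | hr, h1, h2⟩
        · exact ⟨r, Or.inl hr, h1, h2⟩
        · exact ⟨r, Or.inr (Or.inr (Or.inl rfl)), h1, h2⟩
        · exact ⟨_, Or.inr (Or.inl rfl), h1, h2.trans hc⟩
        · exact ⟨r, Or.inr (Or.inr (Or.inr hr)), h1, h2⟩
      · rintro ⟨r, hr | rfl | rfl | hr, h1, h2⟩
        · exact ⟨r, Or.inl hr, h1, h2⟩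
        · exact ⟨q, Or.inr (Or.inr (Or.inl rfl)), h1, h2.trans hc.symm⟩
        · exact ⟨r, Or.inr (Or.inl rfl), h1, h2⟩
        · exact ⟨r, Or.inr (Or.inr (Or.inr hr)), h1, h2⟩
    | conj k l =>
      constructor
      · rintro ⟨r, hr, h1, h2⟩
        exact ⟨_, List.mem_map.2 ⟨r, hr, rfl⟩, h1, h2.trans (isConj_iff.2 ⟨k, rfl⟩)⟩
      · rintro ⟨r, hr, h1, h2⟩
        obtain ⟨q, hq, rfl⟩ := List.mem_map.1 hr
        exact ⟨q, hq, h1, h2.trans (isConj_iff.2 ⟨k, rfl⟩).symm⟩
  | refl u => exact Iff.rfl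
  | symm u v _ ih => exact ih.symm
  | trans u v w _ _ ih1 ih2 => exact ih1.trans ih2

theorem twist_form {t : List SL2} (h : ∀ g ∈ t, IsConj ModularGroup.T g) :
    ∀ g ∈ t, ∃ h : SL2, g = h * a * h⁻¹ := by
  intro g hg
  obtain ⟨c, hc⟩ := isConj_iff.1 (h g hg)
  exact ⟨c, hc.symm⟩

/-- The classification of the data. -/
theorem classify (D D' : Datum) : Eqv D.tuple D'.tuple ↔
    IsConj D.A D'.A ∧ IsConj D.B D'.B ∧ D.t.length = D'.t.length := by
  constructor
  · intro h
    refine ⟨?_, ?_, ?_⟩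
    · obtain ⟨p, hp, h1, h2⟩ := (class_inv h Lab.zero D.A).1
        ⟨(Lab.zero, D.A), by simp [Datum.tuple], rfl, IsConj.refl _⟩
      simp only [Datum.tuple, List.mem_cons, List.mem_append, List.mem_map, List.not_mem_nil,
        or_false] at hp
      rcases hp with rfl | ⟨_, _, rfl⟩ | rfl
      · exact h2
      · cases h1
      · cases h1
    · obtain ⟨p, hp, h1, h2⟩ := (class_inv h Lab.inf D.B).1
        ⟨(Lab.inf, D.B), by simp [Datum.tuple], rfl, IsConj.refl _⟩
      simp only [Datum.tuple, List.mem_cons, List.mem_append, List.mem_map, List.not_mem_nil,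
        or_false] at hp
      rcases hp with rfl | ⟨_, _, rfl⟩ | rfl
      · cases h1
      · cases h1
      · exact h2
    · have := h.length_eq
      simp [Datum.tuple] at this
      exact this
  · rintro ⟨h1, h2, h3⟩
    exact unique D.finite_A D.finite_B h1 h2 (twist_form D.twist) (twist_form D'.twist) h3
      D.closed D'.closed

end Run7.h371
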